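import Pool.Agent.H.MP_8be301_an.TZ.IdT

/-!
# Invariant characters of the central sequence algebra  (module ChT)

`Fc A` = commutant of the constants, a closed star subalgebra of `S A`. Suppose `¬ Tw A`. `I` = left ideal of `Fc A` generated by the elements
`x y - y β (x)` multiplied by arbitrary elements on the right: additive closure of all `a * (x * y - y * β x) * b`. `1 ∉ I` (else
`tw_of_ideal`). `J ⊇ I` a maximal left ideal (`Ideal.exists_le_maximal`; `Ideal` = left ideal). `J` is two-sided: `x ∈ J`, `y ∈ Fc A`: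
`x y = y x + (x y - y x)`, the commutator is in `I` (`β = id`). `J` is closed: it does not meet the open unit ball around 1
(`‖1 - j‖ < 1` makes `j` a unit), so its closure is a proper left ideal, `= J` by maximality. For `x ∈ Fc A` there is `c : ℂ` with `x - c ∈ J`:
`M = Fc A ⧸ J` (quotient of a normed space by a closed subspace, `Submodule.restrictScalars ℂ J`; complete, nontrivial), left multiplication by
`x` is a bounded operator `L x` of `M` (`L` is a ring homomorphism to `M →L[ℂ] M`); `spectrum.nonempty` gives `c` in its spectrum. If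
`x - c ∉ J` then `J + Fc A (x - c)` is everything, `w * (x - c) - 1 ∈ J`, then also `(x - c) * w - 1 ∈ J` (commutators are in `J`) and `L (x - c)` is
invertible, a contradiction (`L j = 0` for `j ∈ J` because `J` is two-sided). `c` is unique (`1 ∉ J`); `χ x = c` is multiplicative.
`x - β x ∈ J` (`y = 1`), so `χ (β x) = χ x`.
-/

set_option autoImplicit false

namespace Pool.Agent.H.MP_8be301_an.TZ

open Filter Topology Pool.Agent.H.MP_8be301_an.RD

/-- A closed two-sided ideal `J` which contains the commutators and which is maximal as a left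
ideal: every element is a scalar modulo `J`. -/
theorem ChT_gm {R : Type*} [NormedRing R] [NormedAlgebra ℂ R] [CompleteSpace R]
    (J : Submodule ℂ R) [IsClosed (J : Set R)] (h1 : (1 : R) ∉ J)
    (hl : ∀ a, ∀ j ∈ J, a * j ∈ J) (hr : ∀ a, ∀ j ∈ J, j * a ∈ J)
    (hcomm : ∀ a b : R, a * b - b * a ∈ J) (hmax : ∀ a ∉ J, ∃ w, w * a - 1 ∈ J) (x : R) :
    ∃ c : ℂ, x - algebraMap ℂ R c ∈ J := by
  have hT : ∀ a : R, ∃ T : (R ⧸ J) →L[ℂ] (R ⧸ J), ∀ b : R,
      T (Submodule.Quotient.mk b) = Submodule.Quotient.mk (a * b) := by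
    intro a
    let T₀ : (R ⧸ J) →ₗ[ℂ] (R ⧸ J) := J.mapQ J (LinearMap.mulLeft ℂ a) (fun j hj => hl a j hj)
    have hT₀ : ∀ b : R, T₀ (Submodule.Quotient.mk b) = Submodule.Quotient.mk (a * b) :=
      fun b => rfl
    refine ⟨T₀.mkContinuous ‖a‖ ?_, hT₀⟩
    intro m
    refine le_of_forall_pos_le_add fun ε hε => ?_
    have ha : 0 ≤ ‖a‖ := norm_nonneg a
    obtain ⟨b, rfl, hb⟩ := Submodule.Quotient.norm_mk_lt m (ε := ε / (‖a‖ + 1)) (by positivity)
    rw [hT₀]
    refine (Submodule.Quotient.norm_mk_le _ _).trans ((norm_mul_le _ _).trans ?_)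
    refine (mul_le_mul_of_nonneg_left hb.le ha).trans ?_
    rw [mul_add]
    refine add_le_add le_rfl ?_
    rw [mul_div_assoc', div_le_iff₀ (by positivity)]
    nlinarith
  have : Nontrivial (R ⧸ J) := by
    refine ⟨Submodule.Quotient.mk 1, 0, fun h => ?_⟩
    exact h1 ((Submodule.Quotient.mk_eq_zero J).1 h)
  obtain ⟨T, hT1⟩ := hT x
  obtain ⟨c, hc⟩ := spectrum.nonempty (A := (R ⧸ J) →L[ℂ] (R ⧸ J)) T
  refine ⟨c, ?_⟩
  by_contra hx
  obtain ⟨w, hw⟩ := hmax _ hx
  obtain ⟨W, hW⟩ := hT w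
  have hw' : (x - algebraMap ℂ R c) * w - 1 ∈ J := by
    have h2 := J.add_mem (hcomm (x - algebraMap ℂ R c) w) hw
    have e : (x - algebraMap ℂ R c) * w - 1 = (x - algebraMap ℂ R c) * w -
        w * (x - algebraMap ℂ R c) + (w * (x - algebraMap ℂ R c) - 1) := by abel
    rw [e]
    exact h2
  rw [spectrum.mem_iff] at hc
  apply hc
  have hal : ∀ b : R, (algebraMap ℂ ((R ⧸ J) →L[ℂ] (R ⧸ J)) c - T) (Submodule.Quotient.mk b) =
      Submodule.Quotient.mk (-((x - algebraMap ℂ R c) * b)) := by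
    intro b
    rw [sub_apply, hT1, Algebra.algebraMap_eq_smul_one,
      smul_apply, one_apply_eq_self,
      ← Submodule.Quotient.mk_smul, ← Submodule.Quotient.mk_sub]
    congr 1
    rw [sub_mul, ← Algebra.smul_def, neg_sub]
  refine ⟨⟨algebraMap ℂ ((R ⧸ J) →L[ℂ] (R ⧸ J)) c - T, -W, ?_, ?_⟩, rfl⟩
  · refine ContinuousLinearMap.ext fun m => ?_
    obtain ⟨b, rfl⟩ := Submodule.Quotient.mk_surjective J m
    rw [mul_apply_eq_comp, neg_apply, hW, map_neg, hal,
      one_apply_eq_self, ← Submodule.Quotient.mk_neg, neg_neg, Submodule.Quotient.eq]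
    have e : (x - algebraMap ℂ R c) * (w * b) - b = ((x - algebraMap ℂ R c) * w - 1) * b := by
      noncomm_ring
    rw [e]
    exact hr b _ hw'
  · refine ContinuousLinearMap.ext fun m => ?_
    obtain ⟨b, rfl⟩ := Submodule.Quotient.mk_surjective J m
    rw [mul_apply_eq_comp, hal, neg_apply, hW,
      one_apply_eq_self, ← Submodule.Quotient.mk_neg, mul_neg, neg_neg,
      Submodule.Quotient.eq]
    have e : w * ((x - algebraMap ℂ R c) * b) - b = (w * (x - algebraMap ℂ R c) - 1) * b := by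
      noncomm_ring
    rw [e]
    exact hr b _ hw

/-- the character -/
theorem ChT_char {R : Type*} [NormedRing R] [NormedAlgebra ℂ R] [CompleteSpace R]
    (I : Ideal R) (hI : I ≠ ⊤) (hcomm : ∀ a b : R, a * b - b * a ∈ I) :
    ∃ χ : R →ₐ[ℂ] ℂ, ∀ a ∈ I, χ a = 0 := by
  obtain ⟨J, hJm, hIJ⟩ := Ideal.exists_le_maximal I hI
  have := hJm
  have hcJ : ∀ a b : R, a * b - b * a ∈ J := fun a b => hIJ (hcomm a b)
  have hr : ∀ a, ∀ j ∈ J, j * a ∈ J := by
    intro a j hj
    have e : j * a = a * j + (j * a - a * j) := by abel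
    rw [e]
    exact J.add_mem (J.mul_mem_left a hj) (hcJ j a)
  have h1 : (1 : R) ∉ J := fun h => hJm.ne_top ((Ideal.eq_top_iff_one J).2 h)
  have hJc : IsClosed (J : Set R) := Ideal.IsMaximal.isClosed
  obtain ⟨J', hJ'⟩ : ∃ J' : Submodule ℂ R, J' = Submodule.restrictScalars ℂ J := ⟨_, rfl⟩
  have hmem : ∀ a, a ∈ J' ↔ a ∈ J := fun a => by
    rw [hJ']
    exact Submodule.restrictScalars_mem ℂ J a
  have : IsClosed (J' : Set R) := by
    rw [hJ']
    exact hJc
  have hex : ∀ x : R, ∃ c : ℂ, x - algebraMap ℂ R c ∈ J := by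
    intro x
    obtain ⟨c, hc⟩ := ChT_gm J' (fun h => h1 ((hmem _).1 h))
      (fun a j hj => (hmem _).2 (J.mul_mem_left a ((hmem _).1 hj)))
      (fun a j hj => (hmem _).2 (hr a j ((hmem _).1 hj)))
      (fun a b => (hmem _).2 (hcJ a b))
      (fun a ha => by
        obtain ⟨w, i, hi, hwi⟩ := hJm.exists_inv (fun h => ha ((hmem _).2 h))
        refine ⟨w, (hmem _).2 ?_⟩
        have e : w * a - 1 = -i := by rw [← hwi]; abel
        rw [e]
        exact J.neg_mem hi) x
    exact ⟨c, (hmem _).1 hc⟩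
  have huniq : ∀ c : ℂ, algebraMap ℂ R c ∈ J → c = 0 := by
    intro c hc
    by_contra h0
    apply h1
    have h2 := J.mul_mem_left (algebraMap ℂ R c⁻¹) hc
    rwa [← map_mul, inv_mul_cancel₀ h0, map_one] at h2
  choose χ hχ using hex
  have key : ∀ (x : R) (c : ℂ), x - algebraMap ℂ R c ∈ J → χ x = c := by
    intro x c hc
    have h2 := J.sub_mem hc (hχ x)
    have e : x - algebraMap ℂ R c - (x - algebraMap ℂ R (χ x)) = algebraMap ℂ R (χ x - c) := by
      rw [map_sub]
      abel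
    rw [e] at h2
    exact sub_eq_zero.1 (huniq _ h2)
  refine ⟨{ toFun := χ, map_one' := ?_, map_mul' := ?_, map_zero' := ?_, map_add' := ?_,
            commutes' := ?_ }, ?_⟩
  · refine key 1 1 ?_
    rw [map_one, sub_self]
    exact J.zero_mem
  · intro x y
    refine key _ _ ?_
    have e : x * y - algebraMap ℂ R (χ x * χ y) = (x - algebraMap ℂ R (χ x)) * y +
        algebraMap ℂ R (χ x) * (y - algebraMap ℂ R (χ y)) := by
      rw [map_mul]
      noncomm_ring
    rw [e]
    exact J.add_mem (hr _ _ (hχ x)) (J.mul_mem_left _ (hχ y))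
  · refine key 0 0 ?_
    rw [map_zero, sub_self]
    exact J.zero_mem
  · intro x y
    refine key _ _ ?_
    have e : x + y - algebraMap ℂ R (χ x + χ y) = (x - algebraMap ℂ R (χ x)) +
        (y - algebraMap ℂ R (χ y)) := by
      rw [map_add]
      abel
    rw [e]
    exact J.add_mem (hχ x) (hχ y)
  · intro c
    refine key _ _ ?_
    rw [Algebra.algebraMap_self_apply, sub_self]
    exact J.zero_mem
  · intro a ha
    refine key a 0 ?_
    rw [map_zero, sub_zero]
    exact hIJ ha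

variable (A : Type*) [CStarAlgebra A]

/-- the central sequence algebra: bounded sequences modulo null sequences that commute with `A` -/
noncomputable def Fc : StarSubalgebra ℂ (S A) := StarSubalgebra.centralizer ℂ (Set.range (k (A := A)))

variable {A}

theorem mem_Fc {x : S A} : x ∈ Fc A ↔ Cen x := by
  unfold Fc
  rw [StarSubalgebra.mem_centralizer_iff]
  constructor
  · intro h a
    exact (h (k a) ⟨a, rfl⟩).1.symm
  · rintro h _ ⟨a, rfl⟩
    refine ⟨(h a).symm, ?_⟩
    rw [← k_star]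
    exact (h (star a)).symm

theorem char_of_not_tw (h : ¬ Tw A) : ∃ χ : Fc A →ₐ[ℂ] ℂ, ∀ β : A ≃⋆ₐ[ℂ] A, CTriv β →
    ∀ x y : Fc A, (y : S A) = ex β (x : S A) → χ y = χ x := by
  have hcl : IsClosed (Fc A : Set (S A)) := by
    show IsClosed ((StarSubalgebra.centralizer ℂ (Set.range (k (A := A))) : StarSubalgebra ℂ (S A)) :
      Set (S A))
    rw [StarSubalgebra.coe_centralizer]
    exact Set.isClosed_centralizer _
  have : CompleteSpace (Fc A) := hcl.completeSpace_coe
  obtain ⟨I, hI⟩ : ∃ I : Ideal (Fc A), ∀ z : Fc A, z ∈ I ↔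
      (z : S A) ∈ TwoSidedIdeal.span (TwS A) :=
    ⟨(TwoSidedIdeal.span (TwS A)).asIdeal.comap (Fc A).subtype, fun z => by
      rw [Ideal.mem_comap, TwoSidedIdeal.mem_asIdeal]
      rfl⟩
  have htop : I ≠ ⊤ := by
    intro h1
    refine h (tw_of_ideal ?_)
    have h2 := (hI 1).1 (h1 ▸ Submodule.mem_top)
    exact h2
  have hcomm : ∀ a b : Fc A, a * b - b * a ∈ I := by
    intro a b
    rw [hI]
    refine TwoSidedIdeal.subset_span ⟨StarAlgEquiv.refl ℂ A, a, b, ?_, mem_Fc.1 a.2, mem_Fc.1 b.2, ?_⟩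
    · intro p hp
      have h1 : SubE p p := ⟨p, by rw [hp.2, hp.1], hp.1⟩
      exact ⟨h1, h1⟩
    · have h1 : ex (StarAlgEquiv.refl ℂ A) (a : S A) = a := by
        obtain ⟨z, hz, hza⟩ := rep (a : S A)
        rw [← hza, ex_mk _ ⟨_, hz⟩]
        rfl
      rw [h1]
      rfl
  obtain ⟨χ, hχ⟩ := ChT_char I htop hcomm
  refine ⟨χ, fun β hβ x y hxy => ?_⟩
  have h1 : x - y ∈ I := by
    rw [hI]
    refine TwoSidedIdeal.subset_span ⟨β, x, 1, hβ, mem_Fc.1 x.2, ?_, ?_⟩
    · intro a
      rw [one_mul, mul_one]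
    · rw [mul_one, one_mul, ← hxy]
      rfl
  have h2 := hχ _ h1
  rw [map_sub, sub_eq_zero] at h2
  exact h2.symm

end Pool.Agent.H.MP_8be301_an.TZ
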