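import Pool.Agent.H.MP_8be301_an.TZ.FinT
import Pool.Agent.H.MP_8be301_an.DP.RokD
import Pool.Agent.H.MP_8be301_an.RD.Cor
import Pool.Agent.H.MP_8be301_an.RD.Lift

/-!
# Cases of full twisted commutators  (module CorT)

`ctriv_of_triv`: `SubE_of_mvn` and `Mvn.symm` of RD/Conn. `tw_of_displ`: `DisF` for `F`, `ε' = min ε (1 / (16 (N + 1)^2))`; `x l = g l`, `y l = 1`,
`T = ∑ g l * g l ≥ 1 / (4 N)` (`Lift_sq` of RD/Lift and `‖∑ g - 1‖ ≤ 1/4`), `a l = T⁻¹ * g l` (`‖T⁻¹‖ ≤ 4 N`), `b l = 1`: `∑ a l * (g l - β l (g l)) =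
1 - T⁻¹ * ∑ g l * β l (g l)`. (`N = 0` or `A` trivial: all sums are 0, everything is equal.) `tw_of_eig`: `N = n`, `β i = β`, `x i = u`,
`y i = 1`, left coefficients `(1 - la)⁻¹ • a i`: `a i * (u - β u) * b i = (1 - la) a i * u * b i - a i * (β u - la u) * b i`; choose `ε` small.
`sfpi_unitary`: `n = 1`, `a = star u`, `b = 1`. `sfpi_path`: `triv_of_path` of RD/Cor.
-/

set_option autoImplicit false

namespace Pool.Agent.H.MP_8be301_an.TZ

open Pool.Agent.H.MP_8be301_an.RD Pool.Agent.H.MP_8be301_an.DP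

variable {A : Type*} [CStarAlgebra A]

theorem ctriv_of_triv {β : A ≃⋆ₐ[ℂ] A} (h : Triv β) : CTriv β := by
  intro p hp
  have hq : Pj (β p) := Hwz_pj β hp
  exact ⟨SubE_of_mvn hq (h p hp), SubE_of_mvn hp (Mvn.symm (h p hp))⟩

/-- the inverse of the sum of the squares -/
theorem CorT_inv [PartialOrder A] [StarOrderedRing A] {N : ℕ} {g : Fin N → A}
    (hg : ∀ l, IsSelfAdjoint (g l)) (h : ‖∑ l, g l - 1‖ ≤ 1 / 16) :
    ∃ T : A, T * ∑ l, g l * g l = 1 ∧ ‖T‖ ≤ 2 * N := by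
  rcases subsingleton_or_nontrivial A with hsub | hnt
  · refine ⟨0, Subsingleton.elim _ _, ?_⟩
    rw [norm_zero]
    positivity
  have hn1 : ‖(1 : A)‖ = 1 := CStarRing.norm_one
  have hN : 0 < N := by
    rcases Nat.eq_zero_or_pos N with rfl | h'
    · exfalso
      simp only [Finset.univ_eq_empty, Finset.sum_empty, zero_sub, norm_neg] at h
      rw [hn1] at h
      norm_num at h
    · exact h'
  have hNR : (0 : ℝ) < N := by exact_mod_cast hN
  have hss : star (∑ l, g l) = ∑ l, g l := by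
    rw [star_sum]
    exact Finset.sum_congr rfl fun l _ => (hg l).star_eq
  have h1 : ‖(∑ l, g l) * (∑ l, g l) - 1‖ ≤ 1 / 2 := by
    obtain ⟨s, hs⟩ : ∃ s, s = ∑ l, g l := ⟨_, rfl⟩
    rw [← hs] at h ⊢
    have e : s * s - 1 = (s - 1) * (s - 1) + (s - 1) + (s - 1) := by noncomm_ring
    calc ‖s * s - 1‖ ≤ ‖s - 1‖ * ‖s - 1‖ + ‖s - 1‖ + ‖s - 1‖ := by
          rw [e]
          exact (norm_add_le _ _).trans (add_le_add ((norm_add_le _ _).trans
            (add_le_add (norm_mul_le _ _) le_rfl)) le_rfl)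
      _ ≤ 1 / 2 := by nlinarith [norm_nonneg (s - 1)]
  have h2 : algebraMap ℝ A 1 ≤ 1 := by rw [map_one]
  have hssa : IsSelfAdjoint ((∑ l, g l) * (∑ l, g l)) := by
    show star _ = _
    rw [star_mul, hss]
  have h3 := lb_close h2 hssa h1
  have h4 := h3.trans (Lift_sq hg)
  obtain ⟨κ, hκdef⟩ : ∃ κ : ℝ, κ = 1 / (2 * N) := ⟨_, rfl⟩
  have hκ : 0 < κ := by rw [hκdef]; positivity
  obtain ⟨c, hc⟩ : ∃ c, c = ∑ l, g l * g l := ⟨_, rfl⟩
  rw [← hc] at h4 ⊢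
  have hP : algebraMap ℝ A κ ≤ c := by
    have h5 : (0 : A) ≤ (N : ℝ)⁻¹ • ((N : ℝ) • c - algebraMap ℝ A (1 - 1 / 2)) :=
      smul_nonneg (inv_nonneg.2 hNR.le) (sub_nonneg.2 h4)
    rw [smul_sub, smul_smul, inv_mul_cancel₀ hNR.ne', one_smul, Algebra.algebraMap_eq_smul_one,
      smul_smul] at h5
    have h6 : (N : ℝ)⁻¹ * (1 - 1 / 2) = κ := by
      rw [hκdef]
      field_simp
      norm_num
    rw [h6, ← Algebra.algebraMap_eq_smul_one] at h5
    exact sub_nonneg.1 h5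
  obtain ⟨t, hts, htc, htcomm⟩ := invSqrt hκ hP
  have hct : c * t = t * c := htcomm c rfl
  have ht2 : κ * (‖t‖ * ‖t‖) ≤ 1 := by
    have e1 := star_left_conjugate_le_conjugate hP t
    rw [hts.star_eq, htc] at e1
    have e2 : t * algebraMap ℝ A κ * t = κ • (star t * t) := by
      rw [Algebra.algebraMap_eq_smul_one, mul_smul_comm, smul_mul_assoc, mul_one, hts.star_eq]
    rw [e2] at e1
    have e3 : (0 : A) ≤ κ • (star t * t) := smul_nonneg hκ.le (star_mul_self_nonneg t)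
    have e4 := CStarAlgebra.norm_le_norm_of_nonneg_of_le e3 e1
    rw [hn1, norm_smul, CStarRing.norm_star_mul_self, Real.norm_of_nonneg hκ.le] at e4
    exact e4
  refine ⟨t * t, ?_, ?_⟩
  · rw [mul_assoc, ← hct, ← mul_assoc, htc]
  · have h5 : 2 * (N : ℝ) * κ = 1 := by
      rw [hκdef]
      field_simp
    calc ‖t * t‖ ≤ ‖t‖ * ‖t‖ := norm_mul_le _ _
      _ = 2 * (N : ℝ) * (κ * (‖t‖ * ‖t‖)) := by rw [← mul_assoc, h5, one_mul]
      _ ≤ 2 * (N : ℝ) * 1 := mul_le_mul_of_nonneg_left ht2 (by positivity)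
      _ = 2 * N := mul_one _

/-- displaced partitions -/
theorem tw_of_displ (h : Displ A) : Tw A := by
  let _ := CStarAlgebra.spectralOrder A
  have := CStarAlgebra.spectralOrderedRing A
  obtain ⟨N, β, hβ, hg⟩ := h
  refine ⟨N, β, 2 * N + 1, fun l => ctriv_of_triv (hβ l), fun F ε hε => ?_⟩
  obtain ⟨η, hη⟩ : ∃ η : ℝ, η = min ε (1 / (16 * ((N : ℝ) + 1) ^ 2)) := ⟨_, rfl⟩
  have hη0 : 0 < η := by
    rw [hη]
    exact lt_min hε (by positivity)
  have hηε : η ≤ ε := by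
    rw [hη]
    exact min_le_left _ _
  have hη1 : η * (16 * ((N : ℝ) + 1) ^ 2) ≤ 1 := by
    have h1 : η ≤ 1 / (16 * ((N : ℝ) + 1) ^ 2) := by
      rw [hη]
      exact min_le_right _ _
    rwa [le_div_iff₀ (by positivity)] at h1
  have hN0 : (0 : ℝ) ≤ N := Nat.cast_nonneg N
  have hη2 : η ≤ 1 / 16 := by
    have h5 : (1 : ℝ) ≤ ((N : ℝ) + 1) ^ 2 := by nlinarith
    have h6 := mul_le_mul_of_nonneg_left h5 hη0.le
    linarith
  obtain ⟨g, g1, g2, g3, g4⟩ := hg F η hη0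
  obtain ⟨T, hT, hTn⟩ := CorT_inv (fun l => (g1 l).1) (g4.le.trans hη2)
  have hone : ‖(1 : A)‖ ≤ 1 := Circ_unit_norm (by simp)
  refine ⟨g, fun _ => 1, fun l => T * g l, fun _ => 1, fun l => ⟨(g1 l).2, hone, ?_, ?_⟩,
    fun l z hz => ⟨(g2 l z hz).1.trans_le hηε, ?_⟩, ?_⟩
  · calc ‖T * g l‖ ≤ ‖T‖ * ‖g l‖ := norm_mul_le _ _
      _ ≤ 2 * N * 1 := mul_le_mul hTn (g1 l).2 (norm_nonneg _) (by positivity)
      _ ≤ 2 * N + 1 := by linarith
  · linarith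
  · simpa using hε
  · have e1 : ∑ l, T * g l * (g l * 1 - 1 * β l (g l)) * 1 =
        T * (∑ l, g l * g l) - ∑ l, T * (g l * β l (g l)) := by
      rw [Finset.mul_sum, ← Finset.sum_sub_distrib]
      refine Finset.sum_congr rfl fun l _ => ?_
      noncomm_ring
    have e : ∑ l, T * g l * (g l * 1 - 1 * β l (g l)) * 1 - 1 =
        -∑ l, T * (g l * β l (g l)) := by
      rw [e1, hT]
      abel
    rw [e, norm_neg]
    calc ‖∑ l, T * (g l * β l (g l))‖ ≤ ∑ l, ‖T * (g l * β l (g l))‖ := norm_sum_le _ _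
      _ ≤ ∑ _l : Fin N, 2 * (N : ℝ) * η := Finset.sum_le_sum fun l _ => (norm_mul_le _ _).trans
          (mul_le_mul hTn (g3 l).le (norm_nonneg _) (by positivity))
      _ = N * (2 * N * η) := by simp
      _ ≤ 1 / 2 := by nlinarith [mul_nonneg hη0.le hN0]

/-- full commutators of central sequences -/
theorem tw_of_comm {N : ℕ} {C : ℝ} (h : ∀ (F : Finset A) (ε : ℝ), 0 < ε →
    ∃ x y a b : Fin N → A, (∀ l, ‖x l‖ ≤ 1 ∧ ‖y l‖ ≤ 1 ∧ ‖a l‖ ≤ C ∧ ‖b l‖ ≤ C) ∧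
      (∀ l, ∀ z ∈ F, ‖x l * z - z * x l‖ < ε ∧ ‖y l * z - z * y l‖ < ε) ∧
      ‖∑ l, a l * (x l * y l - y l * x l) * b l - 1‖ ≤ 1 / 2) : Tw A := by
  refine ⟨N, fun _ => StarAlgEquiv.refl ℂ A, C, fun _ p hp => ?_, h⟩
  have h1 : SubE p p := ⟨p, by rw [hp.2, hp.1], hp.1⟩
  exact ⟨h1, h1⟩

/-- full approximately central eigenelements of an automorphism that preserves the classes of
projections, eigenvalue different from 1 -/
theorem tw_of_eig {β : A ≃⋆ₐ[ℂ] A} (hβ : CTriv β) {la : ℂ} (h1 : la ≠ 1) {n : ℕ} {C : ℝ}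
    (hu : ∀ (F : Finset A) (ε : ℝ), 0 < ε → ∃ (u : A) (a b : Fin n → A), ‖u‖ ≤ 1 ∧
      (∀ z ∈ F, ‖u * z - z * u‖ < ε) ∧ ‖β u - la • u‖ < ε ∧ (∀ i, ‖a i‖ ≤ C ∧ ‖b i‖ ≤ C) ∧
      ‖∑ i, a i * u * b i - 1‖ ≤ 1 / 4) : Tw A := by
  have h1' : (1 - la) ≠ 0 := sub_ne_zero.2 (Ne.symm h1)
  obtain ⟨c, hc⟩ : ∃ c : ℂ, c = (1 - la)⁻¹ := ⟨_, rfl⟩
  have hc0 : 0 ≤ ‖c‖ := norm_nonneg c
  refine ⟨n, fun _ => β, ‖c‖ * |C| + |C|, fun _ => hβ, fun F ε hε => ?_⟩
  obtain ⟨η, hη⟩ : ∃ η : ℝ, η = min ε (1 / (4 * ((n : ℝ) * (‖c‖ * |C| * |C|) + 1))) := ⟨_, rfl⟩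
  have hη0 : 0 < η := by
    rw [hη]
    exact lt_min hε (by positivity)
  have hηε : η ≤ ε := by
    rw [hη]
    exact min_le_left _ _
  have hη1 : η * (4 * ((n : ℝ) * (‖c‖ * |C| * |C|) + 1)) ≤ 1 := by
    have h2 : η ≤ 1 / (4 * ((n : ℝ) * (‖c‖ * |C| * |C|) + 1)) := by
      rw [hη]
      exact min_le_right _ _
    rwa [le_div_iff₀ (by positivity)] at h2
  obtain ⟨u, a, b, hu1, hu2, hu3, hu4, hu5⟩ := hu F η hη0
  have hone : ‖(1 : A)‖ ≤ 1 := Circ_unit_norm (by simp)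
  have hCa : ∀ i, ‖a i‖ ≤ |C| := fun i => (hu4 i).1.trans (le_abs_self C)
  have hCb : ∀ i, ‖b i‖ ≤ |C| := fun i => (hu4 i).2.trans (le_abs_self C)
  refine ⟨fun _ => u, fun _ => 1, fun i => c • a i, b, fun i => ⟨hu1, hone, ?_, ?_⟩,
    fun i z hz => ⟨(hu2 z hz).trans_le hηε, ?_⟩, ?_⟩
  · rw [norm_smul]
    have h2 := mul_le_mul_of_nonneg_left (hCa i) hc0
    have h3 := abs_nonneg C
    linarith
  · have h2 : 0 ≤ ‖c‖ * |C| := by positivity
    linarith [hCb i]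
  · simpa using hε
  · have e : ∑ i, c • a i * (u * 1 - 1 * β u) * b i - 1 =
        (∑ i, a i * u * b i - 1) - ∑ i, c • a i * (β u - la • u) * b i := by
      have e1 : ∑ i, c • a i * (u * 1 - 1 * β u) * b i =
          ∑ i, a i * u * b i - ∑ i, c • a i * (β u - la • u) * b i := by
        rw [← Finset.sum_sub_distrib]
        refine Finset.sum_congr rfl fun i _ => ?_
        have e2 : a i * u * b i = c • a i * ((1 - la) • u) * b i := by
          rw [smul_mul_smul_comm, hc, inv_mul_cancel₀ h1', one_smul]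
        rw [e2, ← sub_mul, ← mul_sub, mul_one, one_mul, sub_smul, one_smul]
        congr 2
        abel
      rw [e1]
      abel
    rw [e]
    calc ‖(∑ i, a i * u * b i - 1) - ∑ i, c • a i * (β u - la • u) * b i‖
        ≤ ‖∑ i, a i * u * b i - 1‖ + ‖∑ i, c • a i * (β u - la • u) * b i‖ := norm_sub_le _ _
      _ ≤ 1 / 4 + ∑ i, ‖c • a i * (β u - la • u) * b i‖ := add_le_add hu5 (norm_sum_le _ _)
      _ ≤ 1 / 4 + ∑ _i : Fin n, ‖c‖ * |C| * η * |C| := by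
        refine add_le_add le_rfl (Finset.sum_le_sum fun i _ => ?_)
        calc ‖c • a i * (β u - la • u) * b i‖ ≤ ‖c • a i‖ * ‖β u - la • u‖ * ‖b i‖ :=
              (norm_mul_le _ _).trans (mul_le_mul_of_nonneg_right (norm_mul_le _ _) (norm_nonneg _))
          _ ≤ ‖c‖ * |C| * η * |C| := by
            rw [norm_smul]
            exact mul_le_mul (mul_le_mul (mul_le_mul_of_nonneg_left (hCa i) hc0) hu3.le
              (norm_nonneg _) (by positivity)) (hCb i) (norm_nonneg _) (by positivity)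
      _ = 1 / 4 + n * (‖c‖ * |C| * η * |C|) := by simp
      _ ≤ 1 / 2 := by
        have h2 : (n : ℝ) * (‖c‖ * |C| * η * |C|) = η * ((n : ℝ) * (‖c‖ * |C| * |C|)) := by ring
        rw [h2]
        nlinarith

/-- `A` is stably finite or purely infinite if there are approximately central unitaries `u` with
`β u ≈ la u`, where `la ≠ 1` and `β` preserves the classes of projections -/
theorem sfpi_unitary (hs : Simp A) (h0 : RR0 A) {β : A ≃⋆ₐ[ℂ] A} (hβ : CTriv β) {la : ℂ}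
    (h1 : la ≠ 1) (hu : ∀ (F : Finset A) (ε : ℝ), 0 < ε → ∃ u : A, star u * u = 1 ∧
      u * star u = 1 ∧ (∀ z ∈ F, ‖u * z - z * u‖ < ε) ∧ ‖β u - la • u‖ < ε) : SFPI A := by
  refine dichT hs h0 (tw_of_eig (n := 1) (C := 1) hβ h1 fun F ε hε => ?_)
  obtain ⟨u, hu1, hu2, hu3, hu4⟩ := hu F ε hε
  have hone : ‖(1 : A)‖ ≤ 1 := Circ_unit_norm (by simp)
  have hun := Circ_unit_norm hu1
  refine ⟨u, fun _ => star u, fun _ => 1, hun, hu3, hu4, fun i => ⟨?_, hone⟩, ?_⟩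
  · rw [norm_star]
    exact hun
  · simp only [Finset.univ_unique, Finset.sum_const, Finset.card_singleton, one_smul, mul_one]
    rw [hu1, sub_self, norm_zero]
    norm_num

/-- the same for an automorphism that is connected to the identity -/
theorem sfpi_path (hs : Simp A) (h0 : RR0 A) {X : Type*} [TopologicalSpace X]
    [ConnectedSpace X] (α : X → (A ≃⋆ₐ[ℂ] A)) (hc : ∀ a : A, Continuous fun x => α x a)
    (x₀ : X) (h₀ : ∀ a, α x₀ a = a) (x : X) {la : ℂ} (h1 : la ≠ 1)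
    (hu : ∀ (F : Finset A) (ε : ℝ), 0 < ε → ∃ u : A, star u * u = 1 ∧ u * star u = 1 ∧
      (∀ z ∈ F, ‖u * z - z * u‖ < ε) ∧ ‖α x u - la • u‖ < ε) : SFPI A := by
  exact sfpi_unitary hs h0 (ctriv_of_triv (triv_of_path α hc x₀ h₀ x)) h1 hu

end Pool.Agent.H.MP_8be301_an.TZ
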