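import Pool.Agent.H.MP_8be301_an.RD.Defs

/-!
# Twisted commutators of central sequences (definitions)

`A` is a unital C*-algebra.
-/

set_option autoImplicit false

namespace Pool.Agent.H.MP_8be301_an.TZ

open Pool.Agent.H.MP_8be301_an.RD

variable {A : Type*} [CStarAlgebra A]

/-- the projection `p` is equivalent to a projection below `q` -/
def SubE (p q : A) : Prop := ∃ v : A, star v * v = p ∧ q * v = v

/-- every projection `p` is equivalent to a projection below `β p`, and `β p` to one below `p` -/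
def CTriv (β : A ≃⋆ₐ[ℂ] A) : Prop := ∀ p : A, Pj p → SubE p (β p) ∧ SubE (β p) p

/-- contractions `x l`, `y l` that commute with the elements of `F` up to `ε` and coefficients
`a l`, `b l` of norm at most `C` with `‖∑ a l (x l y l - y l β l (x l)) b l - 1‖ ≤ 1 / 2` -/
def TwF {N : ℕ} (β : Fin N → (A ≃⋆ₐ[ℂ] A)) (C : ℝ) (F : Finset A) (ε : ℝ)
    (x y a b : Fin N → A) : Prop :=
  (∀ l, ‖x l‖ ≤ 1 ∧ ‖y l‖ ≤ 1 ∧ ‖a l‖ ≤ C ∧ ‖b l‖ ≤ C) ∧
  (∀ l, ∀ z ∈ F, ‖x l * z - z * x l‖ < ε ∧ ‖y l * z - z * y l‖ < ε) ∧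
  ‖∑ l, a l * (x l * y l - y l * β l (x l)) * b l - 1‖ ≤ 1 / 2

variable (A) in
/-- the twisted commutators `x y - y β (x)` of central sequences `x`, `y` of `A`, for automorphisms
`β` with `β p ≲ p ≲ β p` for all projections `p`, are full in the algebra of bounded sequences
modulo null sequences -/
def Tw : Prop := ∃ (N : ℕ) (β : Fin N → (A ≃⋆ₐ[ℂ] A)) (C : ℝ), (∀ l, CTriv (β l)) ∧
  ∀ (F : Finset A) (ε : ℝ), 0 < ε → ∃ x y a b : Fin N → A, TwF β C F ε x y a b

theorem SubE_of_mvn {p q : A} (hq : Pj q) (h : Mvn p q) : SubE p q := by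
  obtain ⟨v, h1, h2⟩ := h
  refine ⟨v, h1, ?_⟩
  have h3 : star (q * v - v) = 0 := by
    have h4 : (q * v - v) * star (q * v - v) = 0 := by
      rw [star_sub, star_mul, hq.2]
      have e : (q * v - v) * (star v * q - star v) = q * (v * star v) * q - q * (v * star v) -
          (v * star v) * q + v * star v := by noncomm_ring
      rw [e, h2, hq.1, hq.1]
      abel
    have h5 := (CStarRing.mul_star_self_eq_zero_iff (q * v - v)).1 h4
    rw [h5, star_zero]
  rw [star_eq_zero, sub_eq_zero] at h3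
  exact h3

end Pool.Agent.H.MP_8be301_an.TZ
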