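import Mathlib

/-!
# One displaced half  (module Dz)

`M = v * star w * T * y`, `Z = u * r0 + M * r1`. `H * w = w * H` and `star H = H` give `star w * H = H * star w`, `w * H * star w = H * Y = Y * H`.
`star M * M = y * star T * (w * H * star w) * T * y = y * (y * h) * y = y * h`. `y * star w = star w`, so `y * M = M`. `star u * M = 0`.
-/

set_option autoImplicit false

namespace Pool.Agent.H.MP_8be301_an.TZ

theorem dispZ {R : Type*} [Ring R] [StarRing R] {u v y w T r0 r1 h H Y p : R}
    (hu : star u * u = h) (hv : star v * v = H) (huv : star u * v = 0) (hy : y * y = y)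
    (hys : star y = y) (hyu : y * u = u * y) (hyv : y * v = v * y) (hyh : y * h = h * y)
    (hw : w * star w = Y) (hwy : w * y = w) (hHw : H * w = w * H)
    (hT : star T * (Y * H) * T = y * h) (hr0 : y * r0 = r0) (hr1 : y * r1 = r1)
    (hhr0 : h * r0 = r0 * h) (hhr1 : h * r1 = r1 * h) (hp0 : r0 * p = r0) (hp1 : r1 * p = r1) :
    ∃ Z : R, y * Z = Z ∧ Z * p = Z ∧ star Z * Z = (star r0 * r0 + star r1 * r1) * h := by
  have hHs : star H = H := by rw [← hv]; simp
  have hys' : y * star w = star w := by
    have h1 := congrArg star hwy
    rw [star_mul, hys] at h1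
    exact h1
  have hwH : star w * H = H * star w := by
    have h1 := congrArg star hHw
    rw [star_mul, star_mul, hHs] at h1
    exact h1
  have hwHw : w * (H * star w) = Y * H := by
    rw [← hwH, ← mul_assoc, hw]
  obtain ⟨M, hM⟩ : ∃ M : R, M = v * star w * T * y := ⟨_, rfl⟩
  have hyM : y * M = M := by
    rw [hM]
    calc y * (v * star w * T * y) = (y * v) * star w * T * y := by simp only [mul_assoc]
      _ = v * (y * star w) * T * y := by rw [hyv]; simp only [mul_assoc]
      _ = v * star w * T * y := by rw [hys']
  have huM : star u * M = 0 := by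
    rw [hM]
    calc star u * (v * star w * T * y) = (star u * v) * star w * T * y := by
          simp only [mul_assoc]
      _ = 0 := by rw [huv]; simp only [zero_mul]
  have hMu : star M * u = 0 := by
    have h1 := congrArg star huM
    rw [star_mul, star_star, star_zero] at h1
    exact h1
  have hMM : star M * M = y * h := by
    rw [hM]
    calc star (v * star w * T * y) * (v * star w * T * y)
        = y * star T * (w * ((star v * v) * star w)) * T * y := by
          simp only [star_mul, star_star, hys, mul_assoc]
      _ = y * (star T * (Y * H) * T) * y := by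
          rw [hv, hwHw]; simp only [mul_assoc]
      _ = y * (y * h) * y := by rw [hT]
      _ = y * h := by
          rw [← mul_assoc, hy, mul_assoc, ← hyh, ← mul_assoc, hy]
  refine ⟨u * r0 + M * r1, ?_, ?_, ?_⟩
  · rw [mul_add, ← mul_assoc, ← mul_assoc, hyM, hyu, mul_assoc, hr0]
  · rw [add_mul, mul_assoc, mul_assoc, hp0, hp1]
  · calc star (u * r0 + M * r1) * (u * r0 + M * r1)
        = star r0 * ((star u * u) * r0) + star r0 * ((star u * M) * r1)
          + star r1 * ((star M * u) * r0) + star r1 * ((star M * M) * r1) := by
          simp only [star_add, star_mul, add_mul, mul_add, mul_assoc]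
          abel
      _ = star r0 * (h * r0) + star r1 * ((y * h) * r1) := by
          rw [hu, huM, hMu, hMM]; simp only [zero_mul, mul_zero, add_zero]
      _ = star r0 * (r0 * h) + star r1 * (r1 * h) := by
          rw [hhr0, hyh, mul_assoc, hr1, hhr1]
      _ = (star r0 * r0 + star r1 * r1) * h := by
          simp only [add_mul, mul_assoc]

end Pool.Agent.H.MP_8be301_an.TZ
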