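import Pool.Agent.H.MP_8be301_an.RD.Sqr

/-!
# Displaced halves from disjoint factors  (module Pr)

`u = a * y * φ b`, `h = star u * u`, `m = CFC.sqrt h` (or `cfc Real.sqrt h`; self-adjoint, `m * m = h`), `v = φ.symm m`.
`star v * v = φ.symm h`. `h = φ b * star y * a * a * y * φ b`, `v * v = b * φ.symm (star y * a * a * y) * b`, so `(a * v) * star (a * v) =
a * v * v * a = 0` because `a * b = 0`; `a * v = 0`, `star u * v = φ b * star y * (a * v) = 0`. If `φ z` commutes with `h` then with `m`, so `z`
commutes with `v`.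
-/

set_option autoImplicit false

namespace Pool.Agent.H.MP_8be301_an.TZ

open Pool.Agent.H.MP_8be301_an.RD

theorem pair {B : Type*} [CStarAlgebra B] (φ : B ≃⋆ₐ[ℂ] B) {a b y u : B} (ha : IsSelfAdjoint a)
    (hb : IsSelfAdjoint b) (hab : a * b = 0) (hu : u = a * y * φ b) :
    ∃ v : B, star v * v = φ.symm (star u * u) ∧ star u * v = 0 ∧
      ∀ z, φ z * (star u * u) = (star u * u) * φ z → v * z = z * v := by
  have hsa : IsSelfAdjoint (star u * u) := IsSelfAdjoint.star_mul_self u
  obtain ⟨m, hm⟩ : ∃ m : B, m = cfc Real.sqrt (star u * u) := ⟨_, rfl⟩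
  have hmsa : IsSelfAdjoint m := by
    rw [hm]
    exact cfc_predicate Real.sqrt (star u * u)
  have hmm : m * m = star u * u := by
    rw [hm, ← cfc_mul Real.sqrt Real.sqrt (star u * u)
      Real.continuous_sqrt.continuousOn Real.continuous_sqrt.continuousOn]
    conv_rhs => rw [← cfc_id ℝ (star u * u)]
    refine cfc_congr ?_
    intro x hx
    exact Real.mul_self_sqrt (spectrum_star_mul_self_nonneg x hx)
  have hb' : star b = b := hb
  have ha' : star a = a := ha
  have hvs : star (φ.symm m) = φ.symm m := by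
    rw [← map_star]
    exact congrArg _ hmsa
  have hvv : φ.symm m * φ.symm m = φ.symm (star u * u) := by
    rw [← map_mul, hmm]
  have hstar : star u = φ b * star y * a := by
    rw [hu, star_mul, star_mul, ← map_star, hb', ha', mul_assoc]
  have hh : φ.symm (star u * u) = b * φ.symm (star y * a * a * y) * b := by
    have h1 : star u * u = φ b * (star y * a * a * y) * φ b := by
      rw [hstar, hu]
      simp only [mul_assoc]
    rw [h1, map_mul, map_mul, StarAlgEquiv.symm_apply_apply]
  have hav : a * φ.symm m = 0 := by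
    rw [← CStarRing.mul_star_self_eq_zero_iff, star_mul, hvs, ha', mul_assoc,
      ← mul_assoc (φ.symm m) (φ.symm m) a, hvv, hh, ← mul_assoc, ← mul_assoc, ← mul_assoc, hab,
      zero_mul, zero_mul, zero_mul]
  refine ⟨φ.symm m, ?_, ?_, ?_⟩
  · rw [hvs, hvv]
  · rw [hstar, mul_assoc, hav, mul_zero]
  · intro z hz
    have h1 : Commute (star u * u) (φ z) := hz.symm
    have h2 : Commute m (φ z) := by
      rw [hm]
      exact h1.cfc_real Real.sqrt
    have h3 := congrArg φ.symm h2.eq
    rw [map_mul, map_mul, StarAlgEquiv.symm_apply_apply] at h3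
    exact h3

end Pool.Agent.H.MP_8be301_an.TZ
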