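import Pool.Agent.H.MP_8be301_an.TZ.Tc
import Pool.Agent.H.MP_8be301_an.TZ.Pr

/-!
# From twisted commutators to displaced halves  (module Fam)

`fam`: replace `C` by `max C 1`, `ε = 1 / (8 (N + 1) C^2)`, `K₀` from `tc` for `ε`; `K = 2 N K₀` (`Fin N × Bool × Fin K₀`, `finProdFinEquiv` or
`Fintype.equivFin`). Write `x l = x' + I x''` with self-adjoint parts of norm at most 1 (`realPart`, `imaginaryPart`, or `(2⁻¹ : ℂ) • (x + star x)` and
`(2⁻¹ : ℂ) • (-I) • (x - star x)`). `x y - y φ x = (x' y - y φ x') + I (x'' y - y φ x'')`. `tc` for both parts; the `u` are the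
`a * y * φ b`, the left coefficients `a l` or `I • a l`, the right coefficients `b l`. The total error is at most `2 N C^2 ε ≤ 1/4`, so
`step4` gives the `d`. `v` from `pair`. Commutation: `x l` commutes with `w` and `star w` so `x'`, `x''` commute with `w`. `u` commutes with `z`
if `a`, `y` do and `b` commutes with `φ.symm z`. `star u * u = φ b * star y * a * a * y * φ b` commutes with `φ z` if `y`, `star y`, `a` do and
`b` commutes with `z`.
-/

set_option autoImplicit false

namespace Pool.Agent.H.MP_8be301_an.TZ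

open Pool.Agent.H.MP_8be301_an.RD

/-- the self-adjoint parts of `x` -/
private noncomputable def FamX {B : Type*} [CStarAlgebra B] (x : B) : Bool → B
  | false => (2⁻¹ : ℂ) • (x + star x)
  | true => (-(2⁻¹ * Complex.I) : ℂ) • (x - star x)

private noncomputable def FamC : Bool → ℂ
  | false => 1
  | true => Complex.I

private theorem Fam_sa {B : Type*} [CStarAlgebra B] (x : B) (s : Bool) :
    IsSelfAdjoint (FamX x s) := by
  cases s
  · show star ((2⁻¹ : ℂ) • (x + star x)) = (2⁻¹ : ℂ) • (x + star x)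
    rw [star_smul, star_add, star_star, add_comm]
    simp
  · show star ((-(2⁻¹ * Complex.I) : ℂ) • (x - star x)) = (-(2⁻¹ * Complex.I) : ℂ) • (x - star x)
    rw [star_smul, star_sub, star_star]
    have h1 : star (-(2⁻¹ * Complex.I) : ℂ) = 2⁻¹ * Complex.I := by
      simp
    rw [h1, neg_smul, ← smul_neg, neg_sub]

private theorem Fam_norm {B : Type*} [CStarAlgebra B] {x : B} (hx : ‖x‖ ≤ 1) (s : Bool) :
    ‖FamX x s‖ ≤ 1 := by
  cases s
  · show ‖(2⁻¹ : ℂ) • (x + star x)‖ ≤ 1
    have h1 := norm_add_le x (star x)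
    rw [norm_star] at h1
    rw [norm_smul, norm_inv, Complex.norm_ofNat]
    linarith
  · show ‖(-(2⁻¹ * Complex.I) : ℂ) • (x - star x)‖ ≤ 1
    have h1 := norm_sub_le x (star x)
    rw [norm_star] at h1
    rw [norm_smul, norm_neg, norm_mul, Complex.norm_I, norm_inv, Complex.norm_ofNat, mul_one]
    linarith

private theorem Fam_sum {B : Type*} [CStarAlgebra B] (x : B) :
    ∑ s : Bool, FamC s • FamX x s = x := by
  rw [Fintype.sum_bool]
  show Complex.I • ((-(2⁻¹ * Complex.I) : ℂ) • (x - star x)) +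
    (1 : ℂ) • ((2⁻¹ : ℂ) • (x + star x)) = x
  rw [smul_smul, one_smul]
  have h1 : Complex.I * (-(2⁻¹ * Complex.I)) = 2⁻¹ := by
    have := Complex.I_mul_I
    linear_combination (-2⁻¹ : ℂ) * this
  rw [h1, ← smul_add]
  have h2 : x - star x + (x + star x) = (2 : ℂ) • x := by
    rw [two_smul]
    abel
  rw [h2, smul_smul]
  norm_num

private theorem Fam_comX {B : Type*} [CStarAlgebra B] {x w : B} (h1 : x * w = w * x)
    (h2 : x * star w = star w * x) (s : Bool) : w * FamX x s = FamX x s * w := by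
  have h3 : star x * w = w * star x := by
    have := congrArg star h2
    rw [star_mul, star_mul, star_star] at this
    exact this.symm
  cases s
  · show w * ((2⁻¹ : ℂ) • (x + star x)) = ((2⁻¹ : ℂ) • (x + star x)) * w
    rw [mul_smul_comm, smul_mul_assoc, mul_add, add_mul, h1, h3]
  · show w * ((-(2⁻¹ * Complex.I) : ℂ) • (x - star x)) =
      ((-(2⁻¹ * Complex.I) : ℂ) • (x - star x)) * w
    rw [mul_smul_comm, smul_mul_assoc, mul_sub, sub_mul, h1, h3]

/-- `u = a * y * φ b` commutes with `w` -/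
private theorem Fam_comU {B : Type*} [CStarAlgebra B] (φ : B ≃⋆ₐ[ℂ] B) {x y a b w : B} {s : Bool}
    (hab : ∀ z, z * FamX x s = FamX x s * z → z * a = a * z ∧ z * b = b * z)
    (h1 : x * w = w * x) (h2 : x * star w = star w * x) (hy : y * w = w * y)
    (h3 : x * φ.symm w = φ.symm w * x) (h4 : x * φ.symm (star w) = φ.symm (star w) * x) :
    (a * y * φ b) * w = w * (a * y * φ b) := by
  have ha := (hab w (Fam_comX h1 h2 s)).1
  have hb := (hab (φ.symm w) (Fam_comX h3 (by rw [← map_star]; exact h4) s)).2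
  have hb' : w * φ b = φ b * w := by
    have h5 := congrArg φ hb
    rw [map_mul, map_mul, StarAlgEquiv.apply_symm_apply] at h5
    exact h5
  calc (a * y * φ b) * w = a * y * (φ b * w) := by rw [mul_assoc]
    _ = a * y * (w * φ b) := by rw [hb']
    _ = a * (y * w) * φ b := by noncomm_ring
    _ = a * (w * y) * φ b := by rw [hy]
    _ = (a * w) * y * φ b := by noncomm_ring
    _ = (w * a) * y * φ b := by rw [ha]
    _ = w * (a * y * φ b) := by noncomm_ring

theorem fam (B : Type*) [CStarAlgebra B] (N : ℕ) (C : ℝ) : ∃ (K : ℕ) (l : Fin K → Fin N),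
    ∀ (φ : Fin N → (B ≃⋆ₐ[ℂ] B)) (x y a b : Fin N → B),
      (∀ i, ‖x i‖ ≤ 1 ∧ ‖y i‖ ≤ 1 ∧ ‖a i‖ ≤ C ∧ ‖b i‖ ≤ C) →
      ‖∑ i, a i * (x i * y i - y i * φ i (x i)) * b i - 1‖ ≤ 1 / 2 →
      ∃ u v d : Fin K → B, (∀ j, star (v j) * v j = (φ (l j)).symm (star (u j) * u j)) ∧
        (∀ j, star (u j) * v j = 0) ∧ ∑ j, star (d j) * (star (u j) * u j) * d j = 1 ∧
        ∀ z : B, (∀ i, ∀ w : B, (w = z ∨ w = star z ∨ w = φ i z ∨ w = φ i (star z) ∨
            w = (φ i).symm z ∨ w = (φ i).symm (star z)) →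
              x i * w = w * x i ∧ y i * w = w * y i) →
          ∀ j, u j * z = z * u j ∧ v j * z = z * v j := by
  classical
  let _ : PartialOrder B := CStarAlgebra.spectralOrder B
  have : StarOrderedRing B := CStarAlgebra.spectralOrderedRing B
  obtain ⟨C', hC'⟩ : ∃ C' : ℝ, C' = max C 1 := ⟨_, rfl⟩
  have hC1 : 1 ≤ C' := by rw [hC']; exact le_max_right _ _
  have hCC : C ≤ C' := by rw [hC']; exact le_max_left _ _
  have hC0 : 0 < C' := by linarith
  obtain ⟨ε, hεd⟩ : ∃ ε : ℝ, ε = 1 / (8 * ((N : ℝ) + 1) * C' ^ 2) := ⟨_, rfl⟩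
  have hN0 : (0 : ℝ) ≤ N := Nat.cast_nonneg N
  have hε : 0 < ε := by rw [hεd]; positivity
  obtain ⟨K₀, hK₀⟩ := tc B hε
  let ι := Fin N × Bool × Fin K₀
  let e : Fin (Fintype.card ι) ≃ ι := (Fintype.equivFin ι).symm
  refine ⟨Fintype.card ι, fun j => (e j).1, ?_⟩
  intro φ x y a b hbd hsum
  have hch := fun (i : Fin N) (s : Bool) => hK₀ (φ i) (FamX (x i) s) (y i) (Fam_sa _ s)
    (Fam_norm (hbd i).1 s) (hbd i).2.1
  choose α β hαβ hcomm herr using hch
  -- the family
  obtain ⟨u, hu⟩ : ∃ u : ι → B, ∀ p : ι, u p = α p.1 p.2.1 p.2.2 * y p.1 * φ p.1 (β p.1 p.2.1 p.2.2) :=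
    ⟨_, fun p => rfl⟩
  have hv := fun p : ι => pair (φ p.1) (hαβ p.1 p.2.1 p.2.2).1 (hαβ p.1 p.2.1 p.2.2).2.1
    (hαβ p.1 p.2.1 p.2.2).2.2 (hu p)
  choose v hv1 hv2 hv3 using hv
  -- the sum
  have hdec : ∀ i, a i * (x i * y i - y i * φ i (x i)) * b i =
      ∑ s : Bool, ∑ k : Fin K₀, (FamC s • a i) * u (i, s, k) * b i +
        ∑ s : Bool, (FamC s • a i) * (FamX (x i) s * y i - y i * φ i (FamX (x i) s) -
          ∑ k, α i s k * y i * φ i (β i s k)) * b i := by
    intro i
    have e1 : ∀ s : Bool, ∑ k : Fin K₀, (FamC s • a i) * u (i, s, k) * b i =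
        (FamC s • a i) * (∑ k, α i s k * y i * φ i (β i s k)) * b i := by
      intro s
      rw [Finset.mul_sum, Finset.sum_mul]
      refine Finset.sum_congr rfl fun k _ => ?_
      rw [hu]
    have e2 : x i * y i - y i * φ i (x i) =
        ∑ s : Bool, FamC s • (FamX (x i) s * y i - y i * φ i (FamX (x i) s)) := by
      conv_lhs => rw [← Fam_sum (x i)]
      rw [Finset.sum_mul, map_sum, Finset.mul_sum, ← Finset.sum_sub_distrib]
      refine Finset.sum_congr rfl fun s _ => ?_
      rw [map_smul, smul_mul_assoc, mul_smul_comm, smul_sub]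
    simp_rw [e1]
    rw [← Finset.sum_add_distrib, e2, Finset.mul_sum, Finset.sum_mul]
    refine Finset.sum_congr rfl fun s _ => ?_
    rw [← add_mul, ← mul_add, add_sub_cancel, mul_smul_comm, smul_mul_assoc, smul_mul_assoc,
      smul_mul_assoc]
  have hcn : ∀ s : Bool, ‖FamC s‖ = 1 := by
    intro s
    cases s
    · exact norm_one
    · exact Complex.norm_I
  have herr2 : ‖∑ i, ∑ s : Bool, (FamC s • a i) * (FamX (x i) s * y i - y i * φ i (FamX (x i) s) -
          ∑ k, α i s k * y i * φ i (β i s k)) * b i‖ ≤ 1 / 4 := by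
    have h1 : ∀ i, ‖∑ s : Bool, (FamC s • a i) * (FamX (x i) s * y i -
        y i * φ i (FamX (x i) s) - ∑ k, α i s k * y i * φ i (β i s k)) * b i‖ ≤
          2 * (C' ^ 2 * ε) := by
      intro i
      refine (norm_sum_le _ _).trans ?_
      have h2 : ∀ s ∈ (Finset.univ : Finset Bool), ‖(FamC s • a i) * (FamX (x i) s * y i -
          y i * φ i (FamX (x i) s) - ∑ k, α i s k * y i * φ i (β i s k)) * b i‖ ≤ C' ^ 2 * ε := by
        intro s _
        refine (norm_mul_le _ _).trans ?_
        have h3 := norm_mul_le (FamC s • a i) (FamX (x i) s * y i -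
          y i * φ i (FamX (x i) s) - ∑ k, α i s k * y i * φ i (β i s k))
        rw [norm_smul, hcn, one_mul] at h3
        have h4 := herr i s
        have h5 : ‖a i‖ ≤ C' := (hbd i).2.2.1.trans hCC
        have h6 : ‖b i‖ ≤ C' := (hbd i).2.2.2.trans hCC
        calc _ ≤ (‖a i‖ * ‖FamX (x i) s * y i -
          y i * φ i (FamX (x i) s) - ∑ k, α i s k * y i * φ i (β i s k)‖) * ‖b i‖ := by gcongr
          _ ≤ (C' * ε) * C' := by gcongr
          _ = C' ^ 2 * ε := by ring
      refine (Finset.sum_le_card_nsmul _ _ _ h2).trans (le_of_eq ?_)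
      rw [Finset.card_univ, Fintype.card_bool, nsmul_eq_mul]
      norm_num
    refine (norm_sum_le _ _).trans ?_
    refine (Finset.sum_le_card_nsmul _ _ _ fun i _ => h1 i).trans ?_
    rw [Finset.card_univ, Fintype.card_fin, nsmul_eq_mul, hεd]
    have h7 : (N : ℝ) * (2 * (C' ^ 2 * (1 / (8 * ((N : ℝ) + 1) * C' ^ 2)))) =
        (N / (N + 1)) / 4 := by
      field_simp
      ring
    rw [h7]
    have h8 : (N : ℝ) / (N + 1) ≤ 1 := by
      rw [div_le_one (by positivity)]
      linarith
    linarith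
  have hs4 : ‖∑ p : ι, (FamC p.2.1 • a p.1) * u p * b p.1 - 1‖ ≤ 3 / 4 := by
    have h1 : ∑ p : ι, (FamC p.2.1 • a p.1) * u p * b p.1 =
        ∑ i, ∑ s : Bool, ∑ k : Fin K₀, (FamC s • a i) * u (i, s, k) * b i := by
      rw [Fintype.sum_prod_type]
      refine Finset.sum_congr rfl fun i _ => ?_
      rw [Fintype.sum_prod_type]
    have h2 : ∑ i, a i * (x i * y i - y i * φ i (x i)) * b i =
        ∑ p : ι, (FamC p.2.1 • a p.1) * u p * b p.1 +
        ∑ i, ∑ s : Bool, (FamC s • a i) * (FamX (x i) s * y i - y i * φ i (FamX (x i) s) -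
          ∑ k, α i s k * y i * φ i (β i s k)) * b i := by
      rw [h1, ← Finset.sum_add_distrib]
      exact Finset.sum_congr rfl fun i _ => hdec i
    have h3 : ∑ p : ι, (FamC p.2.1 • a p.1) * u p * b p.1 - 1 =
        (∑ i, a i * (x i * y i - y i * φ i (x i)) * b i - 1) -
        ∑ i, ∑ s : Bool, (FamC s • a i) * (FamX (x i) s * y i - y i * φ i (FamX (x i) s) -
          ∑ k, α i s k * y i * φ i (β i s k)) * b i := by
      rw [h2]
      abel
    rw [h3]
    refine (norm_sub_le _ _).trans ?_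
    linarith
  obtain ⟨d, hd⟩ := step4 (a := fun p : ι => FamC p.2.1 • a p.1) (u := u) (b := fun p => b p.1) hs4
  refine ⟨fun j => u (e j), fun j => v (e j), fun j => d (e j), fun j => hv1 (e j),
    fun j => hv2 (e j), ?_, ?_⟩
  · rw [← hd]
    exact Equiv.sum_comp e fun p => star (d p) * (star (u p) * u p) * d p
  · intro z hz j
    show u (e j) * z = z * u (e j) ∧ v (e j) * z = z * v (e j)
    generalize e j = q
    obtain ⟨i, s, k⟩ := q
    have hw := fun w hw => hz i w hw
    have c1 := hw z (Or.inl rfl)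
    have c2 := hw (star z) (Or.inr (Or.inl rfl))
    have c3 := hw (φ i z) (Or.inr (Or.inr (Or.inl rfl)))
    have c4 := hw (φ i (star z)) (Or.inr (Or.inr (Or.inr (Or.inl rfl))))
    have c5 := hw ((φ i).symm z) (Or.inr (Or.inr (Or.inr (Or.inr (Or.inl rfl)))))
    have c6 := hw ((φ i).symm (star z)) (Or.inr (Or.inr (Or.inr (Or.inr (Or.inr rfl)))))
    refine ⟨?_, hv3 (i, s, k) z ?_⟩
    · rw [hu]
      exact Fam_comU (φ i) (hcomm i s k) c1.1 c2.1 c1.2 c5.1 c6.1
    · show φ i z * (star (u (i, s, k)) * u (i, s, k)) =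
        (star (u (i, s, k)) * u (i, s, k)) * φ i z
      have k1 : u (i, s, k) * φ i z = φ i z * u (i, s, k) := by
        rw [hu]
        refine Fam_comU (φ i) (hcomm i s k) c3.1 ?_ c3.2 ?_ ?_
        · rw [← map_star]
          exact c4.1
        · rw [StarAlgEquiv.symm_apply_apply]
          exact c1.1
        · rw [← map_star, StarAlgEquiv.symm_apply_apply]
          exact c2.1
      have k2 : u (i, s, k) * φ i (star z) = φ i (star z) * u (i, s, k) := by
        rw [hu]
        refine Fam_comU (φ i) (hcomm i s k) c4.1 ?_ c4.2 ?_ ?_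
        · rw [← map_star, star_star]
          exact c3.1
        · rw [StarAlgEquiv.symm_apply_apply]
          exact c2.1
        · rw [← map_star, star_star, StarAlgEquiv.symm_apply_apply]
          exact c1.1
      have k3 : star (u (i, s, k)) * φ i z = φ i z * star (u (i, s, k)) := by
        have h5 := congrArg star k2
        rw [star_mul, star_mul, ← map_star, star_star] at h5
        exact h5.symm
      rw [mul_assoc, k1, ← mul_assoc, ← k3, mul_assoc]

end Pool.Agent.H.MP_8be301_an.TZ
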