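import Pool.Agent.H.MP_8be301_an.TZ.Sq
import Pool.Agent.H.MP_8be301_an.TZ.Defs

/-!
# The ideal generated by the twisted commutators of central sequences  (module IdT)

`TwoSidedIdeal.mem_span_iff_mem_addSubgroup_closure`: `1 = ∑ ± P l * (X l * Y l - Y l * ex β (X l)) * Q l`, a finite sum. Scale `X l`, `Y l` to
norm `≤ 1/2` (put the factors into `P l`, with the sign). Representatives (`rep`; cut off so that the norms are `≤ 1`: `x l n` with
`‖x l n‖ ≤ 1` for large `n`, by `ev_norm_lt`). `‖x l n * z - z * x l n‖ → 0` for every `z` (`mk_eq`, `k_def`), the norm of the sum minus 1 tends to 0.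
One large `n` for the given `F`, `ε`.
-/

set_option autoImplicit false

namespace Pool.Agent.H.MP_8be301_an.TZ

open Filter Topology Pool.Agent.H.MP_8be301_an.RD

variable {A : Type*} [CStarAlgebra A]

/-- central sequences -/
def Cen (x : S A) : Prop := ∀ a : A, x * k a = k a * x

variable (A) in
/-- twisted commutators of central sequences -/
def TwS : Set (S A) := {z | ∃ (β : A ≃⋆ₐ[ℂ] A) (x y : S A), CTriv β ∧ Cen x ∧ Cen y ∧
  z = x * y - y * ex β x}

/-- a finite sum of multiples of twisted commutators of central sequences of norm less than one -/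
def IdT_rep (z : S A) : Prop := ∃ (ι : Type) (_ : Fintype ι) (β : ι → (A ≃⋆ₐ[ℂ] A))
  (x y p q : ι → S A), (∀ l, CTriv (β l)) ∧ (∀ l, Cen (x l) ∧ Cen (y l)) ∧
    (∀ l, ‖x l‖ < 1 ∧ ‖y l‖ < 1) ∧ ∑ l, p l * (x l * y l - y l * ex (β l) (x l)) * q l = z

theorem IdT_cen_smul {x : S A} (h : Cen x) (c : ℂ) : Cen (c • x) := by
  intro a
  rw [smul_mul_assoc, mul_smul_comm, h a]

theorem IdT_small (x : S A) : ∃ c : ℂ, c ≠ 0 ∧ ‖c⁻¹ • x‖ < 1 := by
  have h1 : 0 ≤ ‖x‖ := norm_nonneg x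
  refine ⟨((‖x‖ + 1 : ℝ) : ℂ), ?_, ?_⟩
  · exact Complex.ofReal_ne_zero.2 (by linarith)
  · rw [norm_smul, norm_inv, Complex.norm_real, Real.norm_of_nonneg (by linarith),
      inv_mul_lt_iff₀ (by linarith)]
    linarith

theorem IdT_base {z : S A} (hz : z ∈ TwS A) (a b : S A) : IdT_rep (a * z * b) := by
  obtain ⟨β, x, y, hβ, hx, hy, rfl⟩ := hz
  obtain ⟨c, hc, hcx⟩ := IdT_small x
  obtain ⟨d, hd, hdy⟩ := IdT_small y
  refine ⟨Unit, inferInstance, fun _ => β, fun _ => c⁻¹ • x, fun _ => d⁻¹ • y,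
    fun _ => (c * d) • a, fun _ => b, fun _ => hβ,
    fun _ => ⟨IdT_cen_smul hx _, IdT_cen_smul hy _⟩, fun _ => ⟨hcx, hdy⟩, ?_⟩
  rw [Fintype.sum_unique]
  have h1 : ex β (c⁻¹ • x) = c⁻¹ • ex β x := map_smul (ex β) _ _
  rw [h1, smul_mul_smul_comm, smul_mul_smul_comm, mul_comm d⁻¹ c⁻¹, ← smul_sub,
    smul_mul_smul_comm, smul_mul_assoc]
  have h2 : c * d * (c⁻¹ * d⁻¹) = 1 := by field_simp
  rw [h2, one_smul]

theorem IdT_add {z w : S A} (hz : IdT_rep z) (hw : IdT_rep w) : IdT_rep (z + w) := by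
  obtain ⟨ι, hι, β, x, y, p, q, h1, h2, h3, h4⟩ := hz
  obtain ⟨κ, hκ, β', x', y', p', q', k1, k2, k3, k4⟩ := hw
  refine ⟨ι ⊕ κ, inferInstance, Sum.elim β β', Sum.elim x x', Sum.elim y y', Sum.elim p p',
    Sum.elim q q', ?_, ?_, ?_, ?_⟩
  · rintro (l | l)
    · exact h1 l
    · exact k1 l
  · rintro (l | l)
    · exact h2 l
    · exact k2 l
  · rintro (l | l)
    · exact h3 l
    · exact k3 l
  · rw [Fintype.sum_sum_type]
    exact congrArg₂ (· + ·) h4 k4

theorem IdT_neg {z : S A} (hz : IdT_rep z) : IdT_rep (-z) := by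
  obtain ⟨ι, hι, β, x, y, p, q, h1, h2, h3, h4⟩ := hz
  refine ⟨ι, hι, β, x, y, fun l => -p l, q, h1, h2, h3, ?_⟩
  have h5 : (∑ l, -p l * (x l * y l - y l * ex (β l) (x l)) * q l) +
      ∑ l, p l * (x l * y l - y l * ex (β l) (x l)) * q l = 0 := by
    rw [← Finset.sum_add_distrib]
    refine Finset.sum_eq_zero fun l _ => ?_
    rw [neg_mul, neg_mul, neg_add_cancel]
  rw [← h4]
  exact eq_neg_of_add_eq_zero_left h5

theorem IdT_of_span {z : S A} (h : z ∈ TwoSidedIdeal.span (TwS A)) : IdT_rep z := by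
  rw [TwoSidedIdeal.mem_span_iff_mem_addSubgroup_closure] at h
  induction h using AddSubgroup.closure_induction with
  | mem w hw =>
    obtain ⟨v, ⟨a, -, u, hu, rfl⟩, b, -, rfl⟩ := hw
    exact IdT_base hu a b
  | zero =>
    refine ⟨Empty, inferInstance, Empty.elim, Empty.elim, Empty.elim, Empty.elim, Empty.elim,
      fun l => l.elim, fun l => l.elim, fun l => l.elim, ?_⟩
    exact Fintype.sum_empty _
  | add v w _ _ hv hw => exact IdT_add hv hw
  | neg v _ hv => exact IdT_neg hv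

theorem IdT_bmul {x y : ℕ → A} (hx : Bdd x) (hy : Bdd y) : Bdd fun n => x n * y n := by
  obtain ⟨C, hC⟩ := hx
  obtain ⟨D, hD⟩ := hy
  refine ⟨C * D, fun n => (norm_mul_le _ _).trans ?_⟩
  exact mul_le_mul (hC n) (hD n) (norm_nonneg _) ((norm_nonneg _).trans (hC n))

theorem IdT_bsub {x y : ℕ → A} (hx : Bdd x) (hy : Bdd y) : Bdd fun n => x n - y n := by
  obtain ⟨C, hC⟩ := hx
  obtain ⟨D, hD⟩ := hy
  exact ⟨C + D, fun n => (norm_sub_le _ _).trans (add_le_add (hC n) (hD n))⟩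

theorem IdT_bsum {ι : Type} (s : Finset ι) {z : ι → ℕ → A} (h : ∀ i, Bdd (z i)) :
    Bdd fun n => ∑ i ∈ s, z i n := by
  choose C hC using h
  exact ⟨∑ i ∈ s, C i, fun n => (norm_sum_le _ _).trans (Finset.sum_le_sum fun i _ => hC i n)⟩

theorem IdT_comm {x : ℕ → A} (hx : Bdd x) (hc : Cen (mk x)) (z : A) {ε : ℝ} (hε : 0 < ε) :
    ∀ᶠ n in atTop, ‖x n * z - z * x n‖ < ε := by
  have h1 : mk (fun n => x n * z) = mk fun n => z * x n := by
    rw [mk_mul hx (Bdd.const z), mk_mul (Bdd.const z) hx, ← k_def]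
    exact hc z
  have h2 := (mk_eq (IdT_bmul hx (Bdd.const z)) (IdT_bmul (Bdd.const z) hx)).1 h1
  exact h2.eventually (gt_mem_nhds hε)

theorem tw_of_ideal (h : (1 : S A) ∈ TwoSidedIdeal.span (TwS A)) : Tw A := by
  obtain ⟨ι, hι, β, X, Y, P, Q, hβ, hc, hn, hs⟩ := IdT_of_span h
  choose x hx hxX using fun l => rep (X l)
  choose y hy hyY using fun l => rep (Y l)
  choose p hp hpP using fun l => rep (P l)
  choose q hq hqQ using fun l => rep (Q l)
  have bx : ∀ l, Bdd (x l) := fun l => ⟨_, hx l⟩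
  have by' : ∀ l, Bdd (y l) := fun l => ⟨_, hy l⟩
  have bp : ∀ l, Bdd (p l) := fun l => ⟨_, hp l⟩
  have bq : ∀ l, Bdd (q l) := fun l => ⟨_, hq l⟩
  obtain ⟨C, hC⟩ : ∃ C : ℝ, C = ∑ l, ((‖P l‖ + 1) + (‖Q l‖ + 1)) := ⟨_, rfl⟩
  have hPC : ∀ l, (‖P l‖ + 1) + (‖Q l‖ + 1) ≤ C := by
    intro l
    rw [hC]
    exact Finset.single_le_sum (f := fun l => (‖P l‖ + 1) + (‖Q l‖ + 1))
      (fun i _ => by positivity) (Finset.mem_univ l)
  -- the sum
  have bt : ∀ l, Bdd fun n => x l n * y l n - y l n * β l (x l n) := fun l =>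
    IdT_bsub (IdT_bmul (bx l) (by' l)) (IdT_bmul (by' l) ((bx l).map (β l)))
  have bt2 : ∀ l, Bdd fun n => p l n * (x l n * y l n - y l n * β l (x l n)) * q l n := fun l =>
    IdT_bmul (IdT_bmul (bp l) (bt l)) (bq l)
  have h1 : mk (fun n => ∑ l, p l n * (x l n * y l n - y l n * β l (x l n)) * q l n) =
      mk fun _ => (1 : A) := by
    rw [mk_sum Finset.univ (fun l n => p l n * (x l n * y l n - y l n * β l (x l n)) * q l n)
      fun l _ => bt2 l, mk_one, ← hs]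
    refine Finset.sum_congr rfl fun l _ => ?_
    rw [mk_mul (IdT_bmul (bp l) (bt l)) (bq l), mk_mul (bp l) (bt l),
      mk_sub (IdT_bmul (bx l) (by' l)) (IdT_bmul (by' l) ((bx l).map (β l))),
      mk_mul (bx l) (by' l), mk_mul (by' l) ((bx l).map (β l)), ← ex_mk (β l) (bx l),
      hxX, hyY, hpP, hqQ]
  have h2 := (mk_eq (IdT_bsum Finset.univ bt2) (Bdd.const (1 : A))).1 h1
  have h3 : ∀ᶠ n in atTop,
      ‖∑ l, p l n * (x l n * y l n - y l n * β l (x l n)) * q l n - 1‖ < 1 / 2 :=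
    h2.eventually (gt_mem_nhds (by norm_num))
  obtain ⟨e⟩ : Nonempty (ι ≃ Fin (Fintype.card ι)) := ⟨Fintype.equivFin ι⟩
  refine ⟨Fintype.card ι, fun l => β (e.symm l), C, fun l => hβ _, fun F ε hε => ?_⟩
  have h4 : ∀ᶠ n in atTop, ∀ l, ‖x l n‖ < 1 ∧ ‖y l n‖ < 1 := by
    rw [eventually_all]
    intro l
    exact (ev_norm_lt (bx l) (by rw [hxX]; exact (hn l).1)).and
      (ev_norm_lt (by' l) (by rw [hyY]; exact (hn l).2))
  have h5 : ∀ᶠ n in atTop, ∀ l, ∀ z ∈ F, ‖x l n * z - z * x l n‖ < ε ∧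
      ‖y l n * z - z * y l n‖ < ε := by
    rw [eventually_all]
    intro l
    rw [eventually_all_finset]
    intro z _
    exact (IdT_comm (bx l) (by rw [hxX]; exact (hc l).1) z hε).and
      (IdT_comm (by' l) (by rw [hyY]; exact (hc l).2) z hε)
  obtain ⟨n, h6, h7, h8⟩ := (h3.and (h4.and h5)).exists
  refine ⟨fun l => x (e.symm l) n, fun l => y (e.symm l) n, fun l => p (e.symm l) n,
    fun l => q (e.symm l) n, fun l => ⟨(h7 _).1.le, (h7 _).2.le, ?_, ?_⟩, fun l => h8 _, ?_⟩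
  · exact (hp _ n).trans (le_trans (by have := norm_nonneg (Q (e.symm l)); linarith)
      (hPC (e.symm l)))
  · exact (hq _ n).trans (le_trans (by have := norm_nonneg (P (e.symm l)); linarith)
      (hPC (e.symm l)))
  · rw [Equiv.sum_comp e.symm fun l => p l n * (x l n * y l n - y l n * β l (x l n)) * q l n]
    exact h6.le

end Pool.Agent.H.MP_8be301_an.TZ
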