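import Pool.Agent.H.MP_8be301_an.TZ.Sq
import Pool.Agent.H.MP_8be301_an.RD.Sqr
import Pool.Agent.H.MP_8be301_an.RD.Defs

/-!
# From the sequence algebra to the algebra  (module LiftZ)

As `liftW` of DP/LimW: `Z i = mk (x i)` with `x i n = y i * x i n * p`; `c n = ∑ star (x i n) * x i n + (1 - p)`, `‖c n - 1‖ → 0`; for one large `n`
`c n ≥ 1/2`, `t` from `invSqrt` (RD/Sqr), `t` commutes with `p`; `z i = x i n * t`: `∑ star (z i) * z i = t (c n - (1 - p)) t`, and multiplied with
`p` on both sides this is `p`; `x i n * p = x i n` gives `z i * p = z i`.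
-/

set_option autoImplicit false

namespace Pool.Agent.H.MP_8be301_an.TZ

open Filter Topology Pool.Agent.H.MP_8be301_an.RD

/-- the statement for fixed elements and the tolerance `1 / 2` -/
private theorem LiftZ_fin {A : Type*} [CStarAlgebra A] [PartialOrder A] [StarOrderedRing A]
    {p : A} (hp : Pj p) {I : Type*} [Fintype I] {x : I → A} (hx : ∀ i, x i * p = x i)
    (c1 : ‖∑ i, star (x i) * x i - p‖ ≤ 1 / 2) :
    ∃ t : A, ∑ i, star (x i * t) * (x i * t) = p := by
  obtain ⟨hpp, hps⟩ := hp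
  obtain ⟨S, hS⟩ : ∃ S : A, S = ∑ i, star (x i) * x i := ⟨_, rfl⟩
  rw [← hS] at c1
  have hSs : IsSelfAdjoint S := by
    show star S = S
    rw [hS, star_sum]
    exact Finset.sum_congr rfl fun i _ => (IsSelfAdjoint.star_mul_self (x i)).star_eq
  have hSp : S * p = S := by
    rw [hS, Finset.sum_mul]
    exact Finset.sum_congr rfl fun i _ => by rw [mul_assoc, hx i]
  have hpS : p * S = S := by
    have := congrArg star hSp
    rwa [star_mul, hps, hSs.star_eq] at this
  have hp1 : IsSelfAdjoint (1 - p) := by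
    show star (1 - p) = 1 - p
    rw [star_sub, star_one, hps]
  have hcs : IsSelfAdjoint (S + (1 - p)) := hSs.add hp1
  have hcl : ‖S + (1 - p) - 1‖ ≤ 1 / 2 := by
    have e : S + (1 - p) - 1 = S - p := by abel
    rw [e]
    exact c1
  have h2 : algebraMap ℝ A 1 ≤ 1 := by rw [map_one]
  have hc := lb_close h2 hcs hcl
  obtain ⟨t, hts, htc, htcomm⟩ := invSqrt (by norm_num : (0 : ℝ) < 1 - 1 / 2) hc
  have hqc : p * (S + (1 - p)) = S := by
    rw [mul_add, mul_sub, mul_one, hpp, sub_self, add_zero, hpS]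
  have hcq : (S + (1 - p)) * p = S := by
    rw [add_mul, sub_mul, one_mul, hpp, sub_self, add_zero, hSp]
  have hqt : p * t = t * p := htcomm p (by rw [hqc, hcq])
  refine ⟨t, ?_⟩
  have e1 : ∑ i, star (x i * t) * (x i * t) = t * S * t := by
    rw [hS, Finset.mul_sum, Finset.sum_mul]
    refine Finset.sum_congr rfl fun i _ => ?_
    rw [star_mul, hts.star_eq]
    simp only [mul_assoc]
  rw [e1]
  calc t * S * t = t * (p * (S + (1 - p))) * t := by rw [hqc]
    _ = t * p * (S + (1 - p)) * t := by rw [← mul_assoc t]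
    _ = p * (t * (S + (1 - p)) * t) := by rw [← hqt]; simp only [mul_assoc]
    _ = p := by rw [htc, mul_one]

theorem liftZ {A : Type*} [CStarAlgebra A] [PartialOrder A] [StarOrderedRing A] {p : A}
    (hp : Pj p) {I : Type*} [Fintype I] {y : I → A} (hy : ∀ i, Pj (y i)) {Z : I → S A}
    (hZ : ∀ i, k (y i) * Z i = Z i) (hZp : ∀ i, Z i * k p = Z i)
    (h : ∑ i, star (Z i) * Z i = k p) :
    ∃ z : I → A, (∀ i, y i * z i = z i) ∧ ∑ i, star (z i) * z i = p := by
  obtain ⟨hpp, hps⟩ := hp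
  choose z hzb hz using fun i => rep (Z i)
  have b1 : ∀ i, Bdd (z i) := fun i => ⟨_, hzb i⟩
  have b2 : ∀ i, Bdd (fun n => y i * z i n) := fun i => Bd.mul (Bdd.const (y i)) (b1 i)
  have b3 : ∀ i, Bdd (fun n => y i * z i n * p) := fun i => Bd.mul (b2 i) (Bdd.const p)
  have b4 : ∀ i, Bdd (fun n => star (y i * z i n * p)) := fun i => Bd.star (b3 i)
  have b5 : ∀ i, Bdd (fun n => star (y i * z i n * p) * (y i * z i n * p)) := fun i =>
    Bd.mul (b4 i) (b3 i)
  have hw : ∀ i, mk (fun n => y i * z i n * p) = Z i := by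
    intro i
    rw [mk_mul (b2 i) (Bdd.const p), mk_mul (Bdd.const (y i)) (b1 i), hz, ← k_def, ← k_def,
      hZ, hZp]
  have h1 : mk (fun n => ∑ i, star (y i * z i n * p) * (y i * z i n * p)) = mk (fun _ => p) := by
    rw [mk_sum Finset.univ (fun i n => star (y i * z i n * p) * (y i * z i n * p))
      (fun i _ => b5 i), ← k_def, ← h]
    refine Finset.sum_congr rfl fun i _ => ?_
    rw [mk_mul (b4 i) (b3 i), mk_star (b3 i), hw]
  have b6 : Bdd (fun n => ∑ i, star (y i * z i n * p) * (y i * z i n * p)) :=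
    Bd.sum Nx (A := fun _ => A) Finset.univ
      (fun i n => star (y i * z i n * p) * (y i * z i n * p)) (fun i _ => b5 i)
  rw [mk_eq b6 (Bdd.const p)] at h1
  obtain ⟨n, hn⟩ := (h1.eventually (gt_mem_nhds (by norm_num : (0 : ℝ) < 1 / 2))).exists
  obtain ⟨t, ht⟩ := LiftZ_fin ⟨hpp, hps⟩ (x := fun i => y i * z i n * p)
    (fun i => by rw [mul_assoc, hpp]) (le_of_lt hn)
  refine ⟨fun i => y i * z i n * p * t, fun i => ?_, ht⟩
  rw [← mul_assoc, ← mul_assoc, ← mul_assoc, (hy i).1]

end Pool.Agent.H.MP_8be301_an.TZ
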