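import Pool.Agent.H.MP_8be301_an.TZ.Sq
import Pool.Agent.H.MP_8be301_an.TZ.Defs
import Pool.Agent.H.MP_8be301_an.RD.Spec

/-!
# Limits in the sequence algebra  (module LimT)

`limT`: for `n` choose `x n, y n, a n, b n` for `F` and `ε = 1 / (n + 1)`; the classes (`mk`). Compare `limW` of DP/LimW and `lim` of RD/Lim.
`lemI`: as `lemU` of RD/Spec: `h0` gives `y` of finite spectrum with `‖b - y‖ < ε / 2`, `finSpec`: `y = ∑ t • r t`; `v t` with `star (v t) * v t = r t`,
`β (r t) * v t = v t`; `T = ∑ v t`, `star (v t) * v t' = 0` for `t ≠ t'`, `star T * T = ∑ r t = 1`, `star T * β y * T = y`.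
`limI`: `rep_sa`, `lemI` for each `n`.
-/

set_option autoImplicit false

namespace Pool.Agent.H.MP_8be301_an.TZ

open Filter Topology Pool.Agent.H.MP_8be301_an.RD

variable {A : Type*} [CStarAlgebra A]

private theorem LimT_pos (n : ℕ) : (0 : ℝ) < 1 / ((n : ℝ) + 1) := by positivity

/-- equality of classes from estimates -/
private theorem LimT_eq {x y : ℕ → A} (hx : Bdd x) (hy : Bdd y)
    (h : ∀ n : ℕ, ‖x n - y n‖ ≤ 1 / ((n : ℝ) + 1)) : mk x = mk y :=
  (mk_eq hx hy).2 (squeeze_zero (fun _ => norm_nonneg _) h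
    tendsto_one_div_add_atTop_nhds_zero_nat)

private theorem LimT_mul {x y : ℕ → A} (hx : Bdd x) (hy : Bdd y) : Bdd (fun n => x n * y n) :=
  Bd.mul (A := fun _ : ℕ => A) hx hy

private theorem LimT_sub {x y : ℕ → A} (hx : Bdd x) (hy : Bdd y) : Bdd (fun n => x n - y n) :=
  Bd.sub (A := fun _ : ℕ => A) hx hy

private theorem LimT_star {x : ℕ → A} (hx : Bdd x) : Bdd (fun n => star (x n)) :=
  Bd.star (A := fun _ : ℕ => A) hx

private theorem LimT_sum {κ : Type*} (s : Finset κ) (z : κ → ℕ → A) (h : ∀ i ∈ s, Bdd (z i)) :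
    Bdd (fun n => ∑ i ∈ s, z i n) :=
  Bd.sum Nx (A := fun _ => A) s z h

/-- isometries have norm at most one -/
private theorem LimT_norm {T : A} (h : star T * T = 1) : ‖T‖ ≤ 1 := by
  have h1 : ‖star T * T‖ = ‖T‖ * ‖T‖ := CStarRing.norm_star_mul_self
  rw [h] at h1
  have h3 : ‖(1 : A)‖ ≤ 1 := norm_one_le' A
  by_contra h4
  nlinarith [not_le.1 h4]

theorem limT {N : ℕ} {β : Fin N → (A ≃⋆ₐ[ℂ] A)} {C : ℝ}
    (hg : ∀ (F : Finset A) (ε : ℝ), 0 < ε → ∃ x y a b : Fin N → A, TwF β C F ε x y a b)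
    (F : Finset A) : ∃ X Y P Q : Fin N → S A,
      (∀ l, ‖X l‖ ≤ 1 ∧ ‖Y l‖ ≤ 1 ∧ ‖P l‖ ≤ C ∧ ‖Q l‖ ≤ C) ∧
      (∀ l, ∀ z ∈ F, X l * k z = k z * X l ∧ Y l * k z = k z * Y l) ∧
      ‖∑ l, P l * (X l * Y l - Y l * ex (β l) (X l)) * Q l - 1‖ ≤ 1 / 2 := by
  choose x y a b hT using fun n : ℕ => hg F (1 / ((n : ℝ) + 1)) (LimT_pos n)
  have hx : ∀ l, Bdd (fun n => x n l) := fun l => ⟨1, fun n => ((hT n).1 l).1⟩
  have hy : ∀ l, Bdd (fun n => y n l) := fun l => ⟨1, fun n => ((hT n).1 l).2.1⟩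
  have ha : ∀ l, Bdd (fun n => a n l) := fun l => ⟨C, fun n => ((hT n).1 l).2.2.1⟩
  have hb : ∀ l, Bdd (fun n => b n l) := fun l => ⟨C, fun n => ((hT n).1 l).2.2.2⟩
  refine ⟨fun l => mk fun n => x n l, fun l => mk fun n => y n l, fun l => mk fun n => a n l,
    fun l => mk fun n => b n l, fun l => ⟨?_, ?_, ?_, ?_⟩, fun l z hz => ⟨?_, ?_⟩, ?_⟩
  · exact norm_mk_le zero_le_one (hx l) (Eventually.of_forall fun n => ((hT n).1 l).1)
  · exact norm_mk_le zero_le_one (hy l) (Eventually.of_forall fun n => ((hT n).1 l).2.1)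
  · exact norm_mk_le ((norm_nonneg _).trans ((hT 0).1 l).2.2.1) (ha l)
      (Eventually.of_forall fun n => ((hT n).1 l).2.2.1)
  · exact norm_mk_le ((norm_nonneg _).trans ((hT 0).1 l).2.2.2) (hb l)
      (Eventually.of_forall fun n => ((hT n).1 l).2.2.2)
  · show mk (fun n => x n l) * k z = k z * mk (fun n => x n l)
    rw [k_def, ← mk_mul (hx l) (Bdd.const z), ← mk_mul (Bdd.const z) (hx l)]
    exact LimT_eq (LimT_mul (hx l) (Bdd.const z)) (LimT_mul (Bdd.const z) (hx l))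
      fun n => ((hT n).2.1 l z hz).1.le
  · show mk (fun n => y n l) * k z = k z * mk (fun n => y n l)
    rw [k_def, ← mk_mul (hy l) (Bdd.const z), ← mk_mul (Bdd.const z) (hy l)]
    exact LimT_eq (LimT_mul (hy l) (Bdd.const z)) (LimT_mul (Bdd.const z) (hy l))
      fun n => ((hT n).2.1 l z hz).2.le
  · have hβx : ∀ l, Bdd (fun n => β l (x n l)) := fun l => (hx l).map (β l)
    have h1 : ∀ l, Bdd (fun n => x n l * y n l - y n l * β l (x n l)) := fun l =>
      LimT_sub (LimT_mul (hx l) (hy l)) (LimT_mul (hy l) (hβx l))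
    have h2 : ∀ l, Bdd (fun n => a n l * (x n l * y n l - y n l * β l (x n l))) := fun l =>
      LimT_mul (ha l) (h1 l)
    have h3 : ∀ l, Bdd (fun n => a n l * (x n l * y n l - y n l * β l (x n l)) * b n l) := fun l =>
      LimT_mul (h2 l) (hb l)
    have h4 : Bdd (fun n => ∑ l, a n l * (x n l * y n l - y n l * β l (x n l)) * b n l) :=
      LimT_sum Finset.univ
        (fun l n => a n l * (x n l * y n l - y n l * β l (x n l)) * b n l) fun l _ => h3 l
    have h5 : Bdd (fun n => ∑ l, a n l * (x n l * y n l - y n l * β l (x n l)) * b n l - 1) :=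
      LimT_sub h4 (Bdd.const 1)
    have h6 : mk (fun n => ∑ l, a n l * (x n l * y n l - y n l * β l (x n l)) * b n l - 1) =
        ∑ l, mk (fun n => a n l) * (mk (fun n => x n l) * mk (fun n => y n l) -
          mk (fun n => y n l) * ex (β l) (mk fun n => x n l)) * mk (fun n => b n l) - 1 := by
      rw [mk_sub h4 (Bdd.const 1), mk_one, mk_sum Finset.univ
        (fun l n => a n l * (x n l * y n l - y n l * β l (x n l)) * b n l) fun l _ => h3 l]
      congr 1
      refine Finset.sum_congr rfl fun l _ => ?_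
      rw [mk_mul (h2 l) (hb l), mk_mul (ha l) (h1 l),
        mk_sub (LimT_mul (hx l) (hy l)) (LimT_mul (hy l) (hβx l)), mk_mul (hx l) (hy l),
        mk_mul (hy l) (hβx l), ex_mk (β l) (hx l)]
    show ‖∑ l, mk (fun n => a n l) * (mk (fun n => x n l) * mk (fun n => y n l) -
          mk (fun n => y n l) * ex (β l) (mk fun n => x n l)) * mk (fun n => b n l) - 1‖ ≤ 1 / 2
    rw [← h6]
    exact norm_mk_le (by norm_num) h5 (Eventually.of_forall fun n => (hT n).2.2)

theorem lemI (h0 : RR0 A) {β : A ≃⋆ₐ[ℂ] A} (hβ : ∀ p, Pj p → SubE p (β p)) {b : A}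
    (hb : IsSelfAdjoint b) {ε : ℝ} (hε : 0 < ε) :
    ∃ T : A, star T * T = 1 ∧ ‖star T * β b * T - b‖ < ε := by
  obtain ⟨y, hy, hyf, hby⟩ := h0 b hb (ε / 2) (by linarith)
  obtain ⟨s, r, hr, horth, hone, hsum⟩ := finSpec hy hyf
  have hex : ∀ x ∈ s, ∃ v : A, star v * v = r x ∧ β (r x) * v = v := fun x hx => hβ _ (hr x hx)
  choose! v hv1 hv2 using hex
  have hβr : ∀ x ∈ s, Pj (β (r x)) := fun x hx =>
    ⟨by rw [← map_mul, (hr x hx).1], by rw [← map_star, (hr x hx).2]⟩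
  have hβo : ∀ x ∈ s, ∀ x' ∈ s, x ≠ x' → β (r x) * β (r x') = 0 := fun x hx x' hx' hne => by
    rw [← map_mul, horth x hx x' hx' hne, map_zero]
  have hvl' : ∀ x ∈ s, star (v x) * β (r x) = star (v x) := fun x hx => by
    have h1 := congrArg star (hv2 x hx)
    rwa [star_mul, (hβr x hx).2] at h1
  obtain ⟨T, hT⟩ : ∃ T : A, T = ∑ x ∈ s, v x := ⟨_, rfl⟩
  have hTs : star T = ∑ x ∈ s, star (v x) := by
    rw [hT, star_sum]
  have hTs' : T = ∑ x ∈ s, star (star (v x)) := by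
    rw [hT]
    exact Finset.sum_congr rfl fun x _ => (star_star _).symm
  have key := Spec_sum (s := s) (q := fun x => β (r x)) (v := fun x => star (v x)) hβo
    (fun x hx => (hβr x hx).2) hvl'
  have k1 : star T * T = 1 := by
    have h1 := key fun _ => 1
    simp only [one_smul, star_star] at h1
    rw [hTs, hT, h1, Finset.sum_congr rfl fun x hx => hv1 x hx, hone]
  have k3 : star T * β y = ∑ x ∈ s, x • star (v x) := by
    rw [← hsum, map_sum, Finset.mul_sum]
    refine Finset.sum_congr rfl fun x hx => ?_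
    rw [Spec_real, mul_smul_comm, hTs, Finset.sum_mul, Finset.sum_eq_single x, hvl' x hx]
    · intro x' hx' hne
      rw [← hvl' x' hx', mul_assoc, hβo x' hx' x hx hne, mul_zero]
    · intro h
      exact absurd hx h
  have k4 : star T * β y * T = y := by
    have h1 := key fun x => x
    simp only [star_star] at h1
    rw [k3, hT, h1, Finset.sum_congr rfl fun x hx => by rw [hv1 x hx]]
    exact hsum
  refine ⟨T, k1, ?_⟩
  have hT1 := LimT_norm k1
  have e : star T * β b * T - b = star T * β (b - y) * T + (y - b) := by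
    have h1 : star T * β (b - y) * T = star T * β b * T - star T * β y * T := by
      rw [map_sub]
      noncomm_ring
    rw [h1, k4]
    abel
  have n2 : ‖β (b - y)‖ = ‖b - y‖ := StarAlgEquiv.norm_map β (b - y)
  have n1 : ‖star T * β (b - y) * T‖ ≤ ‖b - y‖ := by
    calc ‖star T * β (b - y) * T‖ ≤ ‖star T‖ * ‖β (b - y)‖ * ‖T‖ :=
          (norm_mul_le _ _).trans (mul_le_mul_of_nonneg_right (norm_mul_le _ _) (norm_nonneg _))
      _ ≤ 1 * ‖b - y‖ * 1 := by
          rw [norm_star, n2]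
          gcongr
      _ = ‖b - y‖ := by ring
  calc ‖star T * β b * T - b‖ ≤ ‖star T * β (b - y) * T‖ + ‖y - b‖ := by
        rw [e]
        exact norm_add_le _ _
    _ < ε := by
        rw [norm_sub_rev y b]
        linarith

theorem limI (h0 : RR0 A) {β : A ≃⋆ₐ[ℂ] A} (hβ : ∀ p, Pj p → SubE p (β p)) {b : S A}
    (hb : star b = b) : ∃ T : S A, star T * ex β b * T = b := by
  obtain ⟨x, hxs, hxb, hx⟩ := rep_sa hb
  choose T hT1 hT2 using fun n : ℕ => lemI h0 hβ (hxs n) (LimT_pos n)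
  have hTb : Bdd T := ⟨1, fun n => LimT_norm (hT1 n)⟩
  have hxb' : Bdd x := ⟨_, hxb⟩
  have h1 : Bdd (fun n => star (T n) * β (x n)) := LimT_mul (LimT_star hTb) (hxb'.map β)
  refine ⟨mk T, ?_⟩
  rw [← hx, ← mk_star hTb, ex_mk β hxb', ← mk_mul (LimT_star hTb) (hxb'.map β), ← mk_mul h1 hTb]
  exact LimT_eq (LimT_mul h1 hTb) hxb' fun n => (hT2 n).le

end Pool.Agent.H.MP_8be301_an.TZ
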