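import Pool.Agent.H.MP_8be301_an.TZ.Fam
import Pool.Agent.H.MP_8be301_an.TZ.LimT
import Pool.Agent.H.MP_8be301_an.TZ.LiftZ
import Pool.Agent.H.MP_8be301_an.TZ.Dz

/-!
# Property (P)  (module PT)

`K`, `l` from `fam (S A) N C`. `i : I`, `c i = (j, t)`, `γ = (β (l j)).symm` (so `(φ (l j)).symm = ex γ`, `ex_symm`): `CTriv` for `β (l j)` and the
projection `γ (y i)`: `SubE (y i) (γ (y i))`-type statements: from `CTriv β` one gets `CTriv β.symm` (prove it first: apply `β.symm` to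
the implementing elements). `w i` with `w i * star (w i) = γ (y i)`, `w i * y i = w i` (the adjoint of the implementing element of `SubE (γ (y i)) (y i)`).
`F₀` = all `y i`, `w i`, `r b i`, `b t`, `p` and their adjoints; `F` = `F₀` and the images of its elements under all `β l`, `(β l).symm`. `limT` for `F`, then
`fam` with `φ l = ex (β l)` gives `u j`, `v j`, `d j` commuting with `k z`, `z ∈ F₀`. `T i` from `limI` for `γ` and `k (y i) * (star (u j) * u j)`.
`dispZ` with `h = star (u j) * u j`, `H = star (v j) * v j = ex γ h`, `Y = k (γ (y i))`, `ex γ (k (y i) * h) = Y * H`, `w = k (w i)`, `r0 = k (r false i)`, .. gives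
`Z i` with `star (Z i) * Z i = k (star r0 * r0 + star r1 * r1) * h j`. `Z' i = Z i * k (b t) * d j * k p`; `∑ i, star (Z' i) * Z' i =
∑_j k p * star (d j) * (∑_t k (star (b t) * p * b t)) * h j * d j * k p = k p` (group by `c i = (j, t)`, `Finset.sum_fiberwise`; `h j` commutes
with `k (b t)`, `k p`). `liftZ`.
-/

set_option autoImplicit false

namespace Pool.Agent.H.MP_8be301_an.TZ

open Pool.Agent.H.MP_8be301_an.RD

/-- images of projections under automorphisms -/
private theorem PT_pj {A : Type*} [CStarAlgebra A] (β : A ≃⋆ₐ[ℂ] A) {p : A} (hp : Pj p) :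
    Pj (β p) :=
  ⟨by rw [← map_mul, hp.1], by rw [← map_star, hp.2]⟩

theorem CTriv.symm {A : Type*} [CStarAlgebra A] {β : A ≃⋆ₐ[ℂ] A} (h : CTriv β) :
    CTriv β.symm := by
  intro p hp
  have h1 := h (β.symm p) (PT_pj β.symm hp)
  have h2 : β (β.symm p) = p := β.apply_symm_apply p
  rw [h2] at h1
  exact ⟨h1.2, h1.1⟩

/-- a finite set of elements and their images -/
private theorem PT_fin {A : Type*} [CStarAlgebra A] {N : ℕ} (β : Fin N → (A ≃⋆ₐ[ℂ] A))
    (F₀ : Finset A) : ∃ F : Finset A, ∀ z ∈ F₀, z ∈ F ∧ star z ∈ F ∧ ∀ i, β i z ∈ F ∧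
      β i (star z) ∈ F ∧ (β i).symm z ∈ F ∧ (β i).symm (star z) ∈ F := by
  classical
  have hfin : ((F₀ : Set A) ∪ star '' (F₀ : Set A) ∪
      (⋃ i, (β i '' (F₀ : Set A) ∪ (fun z => β i (star z)) '' (F₀ : Set A) ∪
        (β i).symm '' (F₀ : Set A) ∪ (fun z => (β i).symm (star z)) '' (F₀ : Set A)))).Finite := by
    have h0 : (F₀ : Set A).Finite := F₀.finite_toSet
    refine (h0.union (h0.image _)).union (Set.finite_iUnion fun i => ?_)
    exact (((h0.image _).union (h0.image _)).union (h0.image _)).union (h0.image _)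
  refine ⟨hfin.toFinset, fun z hz => ?_⟩
  have hz' : z ∈ (F₀ : Set A) := hz
  refine ⟨?_, ?_, fun i => ⟨?_, ?_, ?_, ?_⟩⟩
  · rw [Set.Finite.mem_toFinset]
    exact Or.inl (Or.inl hz')
  · rw [Set.Finite.mem_toFinset]
    exact Or.inl (Or.inr ⟨z, hz', rfl⟩)
  · rw [Set.Finite.mem_toFinset]
    exact Or.inr (Set.mem_iUnion.2 ⟨i, Or.inl (Or.inl (Or.inl ⟨z, hz', rfl⟩))⟩)
  · rw [Set.Finite.mem_toFinset]
    exact Or.inr (Set.mem_iUnion.2 ⟨i, Or.inl (Or.inl (Or.inr ⟨z, hz', rfl⟩))⟩)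
  · rw [Set.Finite.mem_toFinset]
    exact Or.inr (Set.mem_iUnion.2 ⟨i, Or.inl (Or.inr ⟨z, hz', rfl⟩)⟩)
  · rw [Set.Finite.mem_toFinset]
    exact Or.inr (Set.mem_iUnion.2 ⟨i, Or.inr ⟨z, hz', rfl⟩⟩)

/-- the halves for the sequence algebra -/
private theorem PT_fam {A : Type*} [CStarAlgebra A] {N : ℕ} {β : Fin N → (A ≃⋆ₐ[ℂ] A)} {C : ℝ}
    (hg : ∀ (F : Finset A) (ε : ℝ), 0 < ε → ∃ x y a b : Fin N → A, TwF β C F ε x y a b)
    {K : ℕ} {l : Fin K → Fin N}
    (hK : ∀ (φ : Fin N → (S A ≃⋆ₐ[ℂ] S A)) (x y a b : Fin N → S A),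
      (∀ i, ‖x i‖ ≤ 1 ∧ ‖y i‖ ≤ 1 ∧ ‖a i‖ ≤ C ∧ ‖b i‖ ≤ C) →
      ‖∑ i, a i * (x i * y i - y i * φ i (x i)) * b i - 1‖ ≤ 1 / 2 →
      ∃ u v d : Fin K → S A, (∀ j, star (v j) * v j = (φ (l j)).symm (star (u j) * u j)) ∧
        (∀ j, star (u j) * v j = 0) ∧ ∑ j, star (d j) * (star (u j) * u j) * d j = 1 ∧
        ∀ z : S A, (∀ i, ∀ w : S A, (w = z ∨ w = star z ∨ w = φ i z ∨ w = φ i (star z) ∨
            w = (φ i).symm z ∨ w = (φ i).symm (star z)) →
              x i * w = w * x i ∧ y i * w = w * y i) →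
          ∀ j, u j * z = z * u j ∧ v j * z = z * v j) (F₀ : Finset A) :
    ∃ u v d : Fin K → S A,
      (∀ j, star (v j) * v j = ex (β (l j)).symm (star (u j) * u j)) ∧
      (∀ j, star (u j) * v j = 0) ∧ ∑ j, star (d j) * (star (u j) * u j) * d j = 1 ∧
      ∀ z ∈ F₀, ∀ j, u j * k z = k z * u j ∧ v j * k z = k z * v j := by
  obtain ⟨F, hF⟩ := PT_fin β F₀
  obtain ⟨X, Y, P, Q, h1, h2, h3⟩ := limT hg F
  obtain ⟨u, v, d, h4, h5, h6, h7⟩ := hK (fun i => ex (β i)) X Y P Q h1 h3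
  refine ⟨u, v, d, fun j => h4 j, h5, h6, fun z hz => h7 (k z) fun i w hw => ?_⟩
  obtain ⟨f1, f2, f3⟩ := hF z hz
  obtain ⟨f4, f5, f6, f7⟩ := f3 i
  rcases hw with rfl | rfl | rfl | rfl | rfl | rfl
  · exact h2 i z f1
  · rw [← k_star]
    exact h2 i _ f2
  · rw [ex_k]
    exact h2 i _ f4
  · rw [← k_star, ex_k]
    exact h2 i _ f5
  · rw [ex_symm_k]
    exact h2 i _ f6
  · rw [← k_star, ex_symm_k]
    exact h2 i _ f7

/-- `star x * x` commutes with `z` if `x` commutes with `z` and `star z` -/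
private theorem PT_comm {R : Type*} [Ring R] [StarRing R] {x z : R} (h1 : x * z = z * x)
    (h2 : x * star z = star z * x) : star x * x * z = z * (star x * x) := by
  have h3 : star x * z = z * star x := by
    have := congrArg star h2
    rw [star_mul, star_mul, star_star] at this
    exact this.symm
  rw [mul_assoc, h1, ← mul_assoc, h3, mul_assoc]

/-- the sum of the pieces -/
private theorem PT_sum {R : Type*} [Ring R] [StarRing R] {K m : ℕ} {I : Type*} [Fintype I]
    (c : I → Fin K × Fin m) {p : R} (hpp : p * p = p) (hps : star p = p)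
    {b : Fin m → R} (hb : ∑ t, star (b t) * p * b t = 1) {d h : Fin K → R}
    (hd : ∑ j, star (d j) * h j * d j = 1) (hhb : ∀ j t, h j * b t = b t * h j)
    {Z g : I → R} (hZ : ∀ i, star (Z i) * Z i = g i * h (c i).1)
    (hg : ∀ j, ∑ i with c i = j, g i = p) :
    ∑ i, star (Z i * b (c i).2 * d (c i).1 * p) * (Z i * b (c i).2 * d (c i).1 * p) = p := by
  classical
  rw [← Finset.sum_fiberwise Finset.univ c]
  have h1 : ∀ j : Fin K × Fin m, ∑ i with c i = j,
      star (Z i * b (c i).2 * d (c i).1 * p) * (Z i * b (c i).2 * d (c i).1 * p) =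
      p * (star (d j.1) * ((star (b j.2) * p * b j.2) * h j.1) * d j.1) * p := by
    intro j
    have h2 : ∀ i ∈ Finset.univ.filter (fun i => c i = j),
        star (Z i * b (c i).2 * d (c i).1 * p) * (Z i * b (c i).2 * d (c i).1 * p) =
        p * (star (d j.1) * ((star (b j.2) * g i * b j.2) * h j.1) * d j.1) * p := by
      intro i hi
      have hc : c i = j := (Finset.mem_filter.1 hi).2
      have hZi := hZ i
      rw [hc] at hZi ⊢
      have e1 : star (Z i * b j.2 * d j.1 * p) * (Z i * b j.2 * d j.1 * p) =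
          p * (star (d j.1) * (star (b j.2) * (star (Z i) * Z i) * b j.2) * d j.1) * p := by
        simp only [star_mul, hps, mul_assoc]
      rw [e1, hZi, mul_assoc (star (b j.2)) (g i * h j.1) (b j.2), mul_assoc (g i) (h j.1) (b j.2),
        hhb j.1 j.2]
      simp only [mul_assoc]
    rw [Finset.sum_congr rfl h2, ← Finset.sum_mul, ← Finset.mul_sum, ← Finset.sum_mul,
      ← Finset.mul_sum, ← Finset.sum_mul, ← Finset.sum_mul, ← Finset.mul_sum, hg j]
  rw [Finset.sum_congr rfl fun j _ => h1 j, Fintype.sum_prod_type]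
  have h3 : ∀ j : Fin K, ∑ t : Fin m,
      p * (star (d j) * ((star (b t) * p * b t) * h j) * d j) * p =
      p * (star (d j) * h j * d j) * p := by
    intro j
    rw [← Finset.sum_mul, ← Finset.mul_sum, ← Finset.sum_mul, ← Finset.mul_sum, ← Finset.sum_mul,
      hb, one_mul]
  rw [Finset.sum_congr rfl fun j _ => h3 j, ← Finset.sum_mul, ← Finset.mul_sum, hd, mul_one, hpp]

theorem propT {A : Type*} [CStarAlgebra A] [PartialOrder A] [StarOrderedRing A] (h0 : RR0 A)
    {N : ℕ} {β : Fin N → (A ≃⋆ₐ[ℂ] A)} (hβ : ∀ l, CTriv (β l)) {C : ℝ}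
    (hg : ∀ (F : Finset A) (ε : ℝ), 0 < ε → ∃ x y a b : Fin N → A, TwF β C F ε x y a b) :
    ∃ K : ℕ, ∀ (p : A), Pj p → ∀ (m : ℕ) (b : Fin m → A), ∑ t, star (b t) * p * b t = 1 →
      ∀ (I : Type) [Fintype I] (c : I → Fin K × Fin m) (y : I → A), (∀ i, Pj (y i)) →
      ∀ r : Bool → I → A, (∀ s i, y i * r s i = r s i ∧ r s i * p = r s i) →
      (∀ j, ∑ i with c i = j, (star (r false i) * r false i + star (r true i) * r true i) = p) →
      ∃ z : I → A, (∀ i, y i * z i = z i) ∧ ∑ i, star (z i) * z i = p := by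
  classical
  obtain ⟨K, l, hK⟩ := fam (S A) N C
  refine ⟨K, fun p hp m b hb I _ c y hy r hr hrr => ?_⟩
  -- the automorphisms and the elements w
  have hw : ∀ i, ∃ w : A, w * star w = (β (l (c i).1)).symm (y i) ∧ w * y i = w := by
    intro i
    obtain ⟨v, h1, h2⟩ := ((hβ (l (c i).1)).symm (y i) (hy i)).2
    refine ⟨star v, by rw [star_star, h1], ?_⟩
    have h3 := congrArg star h2
    rwa [star_mul, (hy i).2] at h3
  choose w hw1 hw2 using hw
  obtain ⟨F₀, hFp, hFy, hFw, hFr, hFb⟩ : ∃ F₀ : Finset A, p ∈ F₀ ∧ (∀ i, y i ∈ F₀) ∧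
      (∀ i, w i ∈ F₀ ∧ star (w i) ∈ F₀) ∧ (∀ s i, r s i ∈ F₀ ∧ star (r s i) ∈ F₀) ∧
      (∀ t, b t ∈ F₀ ∧ star (b t) ∈ F₀) := by
    have hfin : ({p} ∪ Set.range y ∪ (Set.range w ∪ Set.range (fun i => star (w i))) ∪
        (Set.range (fun x : Bool × I => r x.1 x.2) ∪
          Set.range (fun x : Bool × I => star (r x.1 x.2))) ∪
        (Set.range b ∪ Set.range (fun t => star (b t)))).Finite := by
      refine Set.Finite.union (Set.Finite.union (Set.Finite.union (Set.Finite.union ?_ ?_) ?_) ?_) ?_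
      · exact Set.finite_singleton _
      · exact Set.finite_range _
      · exact (Set.finite_range _).union (Set.finite_range _)
      · exact (Set.finite_range _).union (Set.finite_range _)
      · exact (Set.finite_range _).union (Set.finite_range _)
    refine ⟨hfin.toFinset, ?_, fun i => ?_, fun i => ⟨?_, ?_⟩, fun s i => ⟨?_, ?_⟩,
      fun t => ⟨?_, ?_⟩⟩ <;> rw [Set.Finite.mem_toFinset]
    · exact Or.inl (Or.inl (Or.inl (Or.inl rfl)))
    · exact Or.inl (Or.inl (Or.inl (Or.inr ⟨i, rfl⟩)))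
    · exact Or.inl (Or.inl (Or.inr (Or.inl ⟨i, rfl⟩)))
    · exact Or.inl (Or.inl (Or.inr (Or.inr ⟨i, rfl⟩)))
    · exact Or.inl (Or.inr (Or.inl ⟨(s, i), rfl⟩))
    · exact Or.inl (Or.inr (Or.inr ⟨(s, i), rfl⟩))
    · exact Or.inr (Or.inl ⟨t, rfl⟩)
    · exact Or.inr (Or.inr ⟨t, rfl⟩)
  obtain ⟨u, v, d, hvu, huv, hd, hcom⟩ := PT_fam hg hK F₀
  have hys : ∀ i, star (k (y i)) = k (y i) := fun i => by rw [← k_star, (hy i).2]
  have hyy : ∀ i, k (y i) * k (y i) = k (y i) := fun i => by rw [← k_mul, (hy i).1]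
  have hhy : ∀ i j, star (u j) * u j * k (y i) = k (y i) * (star (u j) * u j) := fun i j =>
    PT_comm (hcom (y i) (hFy i) j).1 (by rw [hys]; exact (hcom (y i) (hFy i) j).1)
  have hT : ∀ i, ∃ T : S A, star T * (k ((β (l (c i).1)).symm (y i)) *
      (star (v (c i).1) * v (c i).1)) * T = k (y i) * (star (u (c i).1) * u (c i).1) := by
    intro i
    have hsa : star (k (y i) * (star (u (c i).1) * u (c i).1)) =
        k (y i) * (star (u (c i).1) * u (c i).1) := by
      rw [star_mul, star_mul, star_star, hys, hhy]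
    obtain ⟨T, hT⟩ := limI h0 (β := (β (l (c i).1)).symm)
      (fun q hq => ((hβ (l (c i).1)).symm q hq).1) hsa
    refine ⟨T, ?_⟩
    rw [map_mul, ex_k, ← hvu (c i).1] at hT
    exact hT
  choose T hT using hT
  have hZ : ∀ i, ∃ Z : S A, k (y i) * Z = Z ∧ Z * k p = Z ∧
      star Z * Z = (star (k (r false i)) * k (r false i) + star (k (r true i)) * k (r true i)) *
        (star (u (c i).1) * u (c i).1) := by
    intro i
    refine dispZ (u := u (c i).1) (v := v (c i).1) (y := k (y i)) (w := k (w i)) (T := T i)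
      (r0 := k (r false i)) (r1 := k (r true i)) (h := star (u (c i).1) * u (c i).1)
      (H := star (v (c i).1) * v (c i).1) (Y := k ((β (l (c i).1)).symm (y i))) (p := k p)
      rfl rfl (huv _) (hyy i) (hys i) (hcom (y i) (hFy i) _).1.symm (hcom (y i) (hFy i) _).2.symm
      (hhy i _).symm ?_ ?_ ?_ (hT i) ?_ ?_ ?_ ?_ ?_ ?_
    · rw [← k_star, ← k_mul, hw1]
    · rw [← k_mul, hw2]
    · exact PT_comm (hcom (w i) (hFw i).1 _).2 (by rw [← k_star]; exact (hcom _ (hFw i).2 _).2)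
    · rw [← k_mul, (hr false i).1]
    · rw [← k_mul, (hr true i).1]
    · exact PT_comm (hcom (r false i) (hFr false i).1 _).1
        (by rw [← k_star]; exact (hcom _ (hFr false i).2 _).1)
    · exact PT_comm (hcom (r true i) (hFr true i).1 _).1
        (by rw [← k_star]; exact (hcom _ (hFr true i).2 _).1)
    · rw [← k_mul, (hr false i).2]
    · rw [← k_mul, (hr true i).2]
  choose Z hZ1 hZ2 hZ3 using hZ
  refine liftZ hp hy (Z := fun i => Z i * k (b (c i).2) * d (c i).1 * k p) (fun i => ?_)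
    (fun i => ?_) ?_
  · rw [← mul_assoc, ← mul_assoc, ← mul_assoc, hZ1 i]
  · rw [mul_assoc _ (k p) (k p), ← k_mul, hp.1]
  · refine PT_sum c (p := k p) (b := fun t => k (b t)) (d := d)
      (h := fun j => star (u j) * u j) (Z := Z)
      (g := fun i => star (k (r false i)) * k (r false i) + star (k (r true i)) * k (r true i))
      (by rw [← k_mul, hp.1]) (by rw [← k_star, hp.2]) ?_ hd (fun j t => ?_) hZ3 (fun j => ?_)
    · simp only [← k_star, ← k_mul, ← k_sum]
      rw [hb, k_one]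
    · exact PT_comm (hcom (b t) (hFb t).1 j).1 (by rw [← k_star]; exact (hcom _ (hFb t).2 j).1)
    · simp only [← k_star, ← k_mul, ← k_add, ← k_sum]
      rw [hrr j]

end Pool.Agent.H.MP_8be301_an.TZ
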