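import Pool.Agent.H.MP_8be301_an.RD.Sqr

/-!
# Cauchy-Schwarz inequalities for finite sums  (module Rc)

`cs`: expand `0 ≤ ∑ star (d i - star (a i) * s) * (d i - star (a i) * s)`, `s = ∑ a i * d i`:
`= ∑ star d d - s* s - s* s + s* (∑ a a*) s ≤ ∑ star d d - s* s`.
`rowcol`: `cs` with `d i = c i * b i`; `star (b i) * star (c i) * c i * b i ≤ κ^2 • star (b i) * b i`
(`star c * c ≤ ‖c‖^2`, `star_left_conjugate_le_conjugate` or so), so `star s * s ≤ κ^2 • 1` and `‖s‖^2 ≤ κ^2`.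
`step4`: `D = ∑ a u b`, `‖D - 1‖ ≤ 3/4`: `D` is a unit, so `star D * D` is invertible and `≥ δ` for some `δ > 0`. `R > 0` with
`∑ a a* ≤ R`; `cs` with `a / √R` (or with `∑ a a* ≤ R` in the proof: use `s' = R⁻¹ • s`): `star D * D ≤ R • T`,
`T = ∑ star (b k) * (star (u k) * u k) * b k`, so `T ≥ δ / R`; `t` from `invSqrt` (RD/Sqr), `d k = b k * t`, `t T t = 1`.
-/

set_option autoImplicit false

namespace Pool.Agent.H.MP_8be301_an.TZ

open Pool.Agent.H.MP_8be301_an.RD

variable {B : Type*} [CStarAlgebra B] [PartialOrder B] [StarOrderedRing B] {ι : Type*} [Fintype ι]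

theorem cs {a d : ι → B} (ha : ∑ i, a i * star (a i) ≤ 1) :
    star (∑ i, a i * d i) * (∑ i, a i * d i) ≤ ∑ i, star (d i) * d i := by
  obtain ⟨s, hs⟩ : ∃ s, s = ∑ i, a i * d i := ⟨_, rfl⟩
  rw [← hs]
  have h0 : 0 ≤ ∑ i, star (d i - star (a i) * s) * (d i - star (a i) * s) :=
    Finset.sum_nonneg fun i _ => star_mul_self_nonneg _
  have hss : ∑ i, star (d i) * star (a i) = star s := by
    rw [hs, star_sum]
    exact Finset.sum_congr rfl fun i _ => (star_mul _ _).symm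
  have e : ∑ i, star (d i - star (a i) * s) * (d i - star (a i) * s) =
      ∑ i, star (d i) * d i - star s * s - star s * s + star s * (∑ i, a i * star (a i)) * s := by
    have e1 : ∀ i, star (d i - star (a i) * s) * (d i - star (a i) * s) =
        star (d i) * d i - (star (d i) * star (a i)) * s - star s * (a i * d i) +
          star s * (a i * star (a i)) * s := by
      intro i
      rw [star_sub, star_mul, star_star]
      noncomm_ring
    simp only [e1]
    rw [Finset.sum_add_distrib, Finset.sum_sub_distrib, Finset.sum_sub_distrib, ← Finset.sum_mul,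
      ← Finset.mul_sum, ← Finset.sum_mul, ← Finset.mul_sum, hss, ← hs]
  have h1 : star s * (∑ i, a i * star (a i)) * s ≤ star s * 1 * s :=
    star_left_conjugate_le_conjugate ha s
  rw [mul_one] at h1
  rw [e] at h0
  rw [← sub_nonneg]
  have h2 := add_nonneg h0 (sub_nonneg.2 h1)
  convert h2 using 1
  abel

theorem Rc_le {c : B} {κ : ℝ} (hκ : 0 ≤ κ) (hc : ‖c‖ ≤ κ) :
    star c * c ≤ algebraMap ℝ B (κ ^ 2) := by
  have h1 : ‖star c * c‖ ≤ κ ^ 2 := by
    rw [CStarRing.norm_star_mul_self, ← sq]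
    exact pow_le_pow_left₀ (norm_nonneg _) hc 2
  have h2 := (IsSelfAdjoint.star_mul_self c).le_algebraMap_norm_self
  exact h2.trans (algebraMap_mono B h1)

theorem Rc_conj {x : B} (b : B) {r : ℝ} (h : x ≤ algebraMap ℝ B r) :
    star b * x * b ≤ r • (star b * b) := by
  have h1 := star_left_conjugate_le_conjugate h b
  refine h1.trans (le_of_eq ?_)
  rw [Algebra.algebraMap_eq_smul_one, mul_smul_comm, mul_one, smul_mul_assoc]

theorem rowcol {a b c : ι → B} {κ : ℝ} (hκ : 0 ≤ κ) (ha : ∑ i, a i * star (a i) ≤ 1)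
    (hb : ∑ i, star (b i) * b i ≤ 1) (hc : ∀ i, ‖c i‖ ≤ κ) : ‖∑ i, a i * c i * b i‖ ≤ κ := by
  obtain ⟨s, hs⟩ : ∃ s, s = ∑ i, a i * (c i * b i) := ⟨_, rfl⟩
  have e : ∑ i, a i * c i * b i = s := by
    rw [hs]
    exact Finset.sum_congr rfl fun i _ => mul_assoc _ _ _
  rw [e]
  have h1 : star s * s ≤ ∑ i, star (c i * b i) * (c i * b i) := by
    rw [hs]
    exact cs ha
  have h2 : ∑ i, star (c i * b i) * (c i * b i) ≤ ∑ i, κ ^ 2 • (star (b i) * b i) := by
    refine Finset.sum_le_sum fun i _ => ?_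
    have h3 := Rc_conj (b i) (Rc_le hκ (hc i))
    convert h3 using 1
    rw [star_mul]
    noncomm_ring
  have h3 : ∑ i, κ ^ 2 • (star (b i) * b i) ≤ algebraMap ℝ B (κ ^ 2) := by
    rw [← Finset.smul_sum, Algebra.algebraMap_eq_smul_one]
    exact smul_le_smul_of_nonneg_left hb (by positivity)
  have h4 := (CStarAlgebra.norm_le_iff_le_algebraMap (star s * s) (r := κ ^ 2) (by positivity)
    (star_mul_self_nonneg s)).2 (h1.trans (h2.trans h3))
  rw [CStarRing.norm_star_mul_self, ← sq] at h4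
  exact (sq_le_sq₀ (norm_nonneg _) hκ).1 h4

theorem step4 {a u b : ι → B} (h : ‖∑ i, a i * u i * b i - 1‖ ≤ 3 / 4) :
    ∃ d : ι → B, ∑ i, star (d i) * (star (u i) * u i) * d i = 1 := by
  obtain ⟨D, hD⟩ : ∃ D, D = ∑ i, a i * (u i * b i) := ⟨_, rfl⟩
  have e : ∑ i, a i * u i * b i = D := by
    rw [hD]
    exact Finset.sum_congr rfl fun i _ => mul_assoc _ _ _
  rw [e] at h
  obtain ⟨T, hT⟩ : ∃ T, T = ∑ i, star (b i) * (star (u i) * u i) * b i := ⟨_, rfl⟩
  have hu : IsUnit D := by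
    have h1 : ‖1 - D‖ < 1 := by
      rw [norm_sub_rev]
      linarith
    have h2 := isUnit_one_sub_of_norm_lt_one h1
    rwa [sub_sub_cancel] at h2
  obtain ⟨E, hE⟩ : ∃ E : B, E * D = 1 := ⟨_, hu.val_inv_mul⟩
  -- lower bound of `star D * D`
  obtain ⟨M, hM0, hM⟩ : ∃ M : ℝ, 0 < M ∧ (1 : B) ≤ M • (star D * D) := by
    refine ⟨‖E‖ ^ 2 + 1, by positivity, ?_⟩
    have h1 := Rc_conj D (Rc_le (norm_nonneg E) le_rfl)
    have h2 : star D * (star E * E) * D = 1 := by
      calc star D * (star E * E) * D = star (E * D) * (E * D) := by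
            rw [star_mul]; noncomm_ring
        _ = 1 := by rw [hE, star_one, mul_one]
    rw [h2] at h1
    refine h1.trans ?_
    exact smul_le_smul_of_nonneg_right (by linarith) (star_mul_self_nonneg D)
  -- Cauchy-Schwarz
  obtain ⟨R, hR0, hR⟩ : ∃ R : ℝ, 0 < R ∧ ∑ i, a i * star (a i) ≤ algebraMap ℝ B R := by
    refine ⟨‖∑ i, a i * star (a i)‖ + 1, by positivity, ?_⟩
    have h1 : IsSelfAdjoint (∑ i, a i * star (a i)) :=
      isSelfAdjoint_sum _ fun i _ => IsSelfAdjoint.mul_star_self (a i)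
    exact h1.le_algebraMap_norm_self.trans (algebraMap_mono B (by linarith))
  have hq : 0 < Real.sqrt R := Real.sqrt_pos.2 hR0
  have hqq : (Real.sqrt R)⁻¹ * (Real.sqrt R)⁻¹ = R⁻¹ := by
    rw [← mul_inv, Real.mul_self_sqrt hR0.le]
  have h3 : ∑ i, ((Real.sqrt R)⁻¹ • a i) * star ((Real.sqrt R)⁻¹ • a i) ≤ 1 := by
    have e1 : ∀ i, ((Real.sqrt R)⁻¹ • a i) * star ((Real.sqrt R)⁻¹ • a i) =
        R⁻¹ • (a i * star (a i)) := by
      intro i
      rw [star_smul, star_trivial, smul_mul_smul_comm, hqq]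
    simp only [e1]
    rw [← Finset.smul_sum]
    refine (smul_le_smul_of_nonneg_left hR (by positivity)).trans (le_of_eq ?_)
    rw [Algebra.algebraMap_eq_smul_one, smul_smul, inv_mul_cancel₀ hR0.ne', one_smul]
  have h4 := cs (d := fun i => u i * b i) h3
  have e2 : ∑ i, ((Real.sqrt R)⁻¹ • a i) * (u i * b i) = (Real.sqrt R)⁻¹ • D := by
    rw [hD, Finset.smul_sum]
    exact Finset.sum_congr rfl fun i _ => smul_mul_assoc _ _ _
  have e3 : ∑ i, star (u i * b i) * (u i * b i) = T := by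
    rw [hT]
    refine Finset.sum_congr rfl fun i _ => ?_
    rw [star_mul]
    noncomm_ring
  rw [e2, star_smul, star_trivial, smul_mul_smul_comm, hqq, e3] at h4
  have h5 : algebraMap ℝ B (R⁻¹ * M⁻¹) ≤ T := by
    refine le_trans ?_ h4
    have h6 := smul_le_smul_of_nonneg_left hM (show (0 : ℝ) ≤ R⁻¹ * M⁻¹ by positivity)
    rw [smul_smul, mul_assoc, inv_mul_cancel₀ hM0.ne', mul_one] at h6
    rw [Algebra.algebraMap_eq_smul_one]
    exact h6
  obtain ⟨t, ht, htT, -⟩ := invSqrt (show 0 < R⁻¹ * M⁻¹ by positivity) h5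
  refine ⟨fun i => b i * t, ?_⟩
  rw [← htT, hT, Finset.mul_sum, Finset.sum_mul]
  refine Finset.sum_congr rfl fun i _ => ?_
  rw [star_mul, ht.star_eq]
  noncomm_ring

end Pool.Agent.H.MP_8be301_an.TZ
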