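import Pool.Agent.H.MP_8be301_an.TZ.Sq2

/-!
# Bounded sequences of elements of `A` modulo null sequences  (module Sq)

`S A` is the C*-algebra of the bounded sequences of elements of `A` modulo the null sequences, `mk x` the class of a
bounded sequence (`mk x = 0` if `x` is not bounded), `k a` the class of the constant sequence `a`, `ex β` the
automorphism of `S A` induced by an automorphism `β` of `A`. See Sq1, Sq2 for `cl_mul`, `cl_add`, `cl_star`, `norm_cl_le`,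
`eventually_norm_lt`, `exists_rep`, ...
-/

set_option autoImplicit false

namespace Pool.Agent.H.MP_8be301_an.TZ

open Filter Topology

/-- the natural numbers -/
noncomputable def Nx : Ix := ⟨ℕ, atTop, inferInstance, id, tendsto_id⟩

/-- bounded sequences modulo null sequences -/
abbrev S (A : Type*) [CStarAlgebra A] := SQ Nx (fun _ => A)

variable {A : Type*} [CStarAlgebra A]

/-- the class of a bounded sequence -/
noncomputable def mk (x : ℕ → A) : S A := cl Nx (A := fun _ => A) x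

/-- the class of a constant sequence -/
noncomputable def k (a : A) : S A := cst Nx A a

/-- bounded sequences -/
def Bdd (x : ℕ → A) : Prop := ∃ C : ℝ, ∀ n, ‖x n‖ ≤ C

theorem rep (a : S A) : ∃ x : ℕ → A, (∀ n, ‖x n‖ ≤ ‖a‖ + 1) ∧ mk x = a := exists_rep Nx a

theorem mk_eq {x y : ℕ → A} (hx : Bdd x) (hy : Bdd y) :
    mk x = mk y ↔ Tendsto (fun n => ‖x n - y n‖) atTop (𝓝 0) := cl_eq_iff Nx hx hy

theorem mk_add {x y : ℕ → A} (hx : Bdd x) (hy : Bdd y) :
    mk (fun n => x n + y n) = mk x + mk y := cl_add Nx hx hy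

theorem mk_sub {x y : ℕ → A} (hx : Bdd x) (hy : Bdd y) :
    mk (fun n => x n - y n) = mk x - mk y := cl_sub Nx hx hy

theorem mk_mul {x y : ℕ → A} (hx : Bdd x) (hy : Bdd y) :
    mk (fun n => x n * y n) = mk x * mk y := cl_mul Nx hx hy

theorem mk_star {x : ℕ → A} (hx : Bdd x) : mk (fun n => star (x n)) = star (mk x) :=
  cl_star Nx hx

theorem mk_smul (c : ℂ) {x : ℕ → A} (hx : Bdd x) : mk (fun n => c • x n) = c • mk x :=
  cl_smul Nx c hx

theorem mk_one : mk (fun _ => (1 : A)) = 1 := cl_one Nx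

theorem mk_zero : mk (fun _ => (0 : A)) = 0 := cl_zero Nx

theorem mk_sum {κ : Type*} (s : Finset κ) (z : κ → ℕ → A) (h : ∀ i ∈ s, Bdd (z i)) :
    mk (fun n => ∑ i ∈ s, z i n) = ∑ i ∈ s, mk (z i) := cl_sum Nx s z h

theorem norm_mk_le {x : ℕ → A} {C : ℝ} (hC : 0 ≤ C) (hx : Bdd x)
    (h : ∀ᶠ n in atTop, ‖x n‖ ≤ C) : ‖mk x‖ ≤ C := norm_cl_le Nx hC hx h

theorem ev_norm_lt {x : ℕ → A} {C : ℝ} (hx : Bdd x) (h : ‖mk x‖ < C) :
    ∀ᶠ n in atTop, ‖x n‖ < C := eventually_norm_lt Nx hx h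

theorem k_def (a : A) : k a = mk (fun _ => a) := rfl

theorem k_one : k (1 : A) = 1 := map_one (cst Nx A)

theorem k_zero : k (0 : A) = 0 := map_zero (cst Nx A)

theorem k_mul (a b : A) : k (a * b) = k a * k b := map_mul (cst Nx A) a b

theorem k_add (a b : A) : k (a + b) = k a + k b := map_add (cst Nx A) a b

theorem k_sub (a b : A) : k (a - b) = k a - k b := map_sub (cst Nx A) a b

theorem k_star (a : A) : k (star a) = star (k a) := map_star (cst Nx A) a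

theorem k_smul (c : ℂ) (a : A) : k (c • a) = c • k a := map_smul (cst Nx A) c a

theorem k_sum {κ : Type*} (s : Finset κ) (z : κ → A) : k (∑ i ∈ s, z i) = ∑ i ∈ s, k (z i) :=
  map_sum (cst Nx A) z s

theorem norm_k (a : A) : ‖k a‖ = ‖a‖ := norm_cst Nx A a

theorem Bdd.const (a : A) : Bdd (fun _ => a) := ⟨‖a‖, fun _ => le_rfl⟩

/-- the induced homomorphism -/
noncomputable def exH (β : A ≃⋆ₐ[ℂ] A) : S A →⋆ₐ[ℂ] S A :=
  SQ.map Nx (fun _ => ((β : A ≃⋆ₐ[ℂ] A) : A →⋆ₐ[ℂ] A))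

theorem exH_mk (β : A ≃⋆ₐ[ℂ] A) {x : ℕ → A} (hx : Bdd x) :
    exH β (mk x) = mk (fun n => β (x n)) :=
  SQ.map_cl Nx (fun _ => ((β : A ≃⋆ₐ[ℂ] A) : A →⋆ₐ[ℂ] A)) hx

theorem Bdd.map (β : A ≃⋆ₐ[ℂ] A) {x : ℕ → A} (hx : Bdd x) : Bdd (fun n => β (x n)) := by
  obtain ⟨C, hC⟩ := hx
  exact ⟨C, fun n => (NonUnitalStarAlgHom.norm_apply_le β (x n)).trans (hC n)⟩

theorem exH_comp (β γ : A ≃⋆ₐ[ℂ] A) (h : ∀ a, β (γ a) = a) (x : S A) :
    exH β (exH γ x) = x := by
  obtain ⟨x, hx, rfl⟩ := rep x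
  have hb : Bdd x := ⟨_, hx⟩
  rw [exH_mk γ hb, exH_mk β (hb.map γ)]
  simp only [h]

/-- the automorphism of the sequence algebra induced by an automorphism -/
noncomputable def ex (β : A ≃⋆ₐ[ℂ] A) : S A ≃⋆ₐ[ℂ] S A :=
  StarAlgEquiv.ofStarAlgHom (exH β) (exH β.symm)
    (StarAlgHom.ext fun x => exH_comp _ _ (fun a => by simp) x)
    (StarAlgHom.ext fun x => exH_comp _ _ (fun a => by simp) x)

theorem ex_mk (β : A ≃⋆ₐ[ℂ] A) {x : ℕ → A} (hx : Bdd x) :
    ex β (mk x) = mk (fun n => β (x n)) := exH_mk β hx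

theorem ex_k (β : A ≃⋆ₐ[ℂ] A) (a : A) : ex β (k a) = k (β a) := ex_mk β (Bdd.const a)

theorem ex_symm_k (β : A ≃⋆ₐ[ℂ] A) (a : A) : (ex β).symm (k a) = k (β.symm a) :=
  exH_mk β.symm (Bdd.const a)

theorem ex_symm (β : A ≃⋆ₐ[ℂ] A) (x : S A) : (ex β).symm x = ex β.symm x := rfl

/-- a self-adjoint class has a self-adjoint representative -/
theorem rep_sa {b : S A} (hb : star b = b) : ∃ x : ℕ → A, (∀ n, IsSelfAdjoint (x n)) ∧
    (∀ n, ‖x n‖ ≤ ‖b‖ + 1) ∧ mk x = b := by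
  obtain ⟨x, hx, h⟩ := rep b
  have hb1 : Bdd x := ⟨_, hx⟩
  have hb2 : Bdd (fun n => star (x n)) := ⟨‖b‖ + 1, fun n => by rw [norm_star]; exact hx n⟩
  refine ⟨fun n => (2⁻¹ : ℂ) • (x n + star (x n)), fun n => ?_, fun n => ?_, ?_⟩
  · show star ((2⁻¹ : ℂ) • (x n + star (x n))) = (2⁻¹ : ℂ) • (x n + star (x n))
    rw [star_smul, star_add, star_star, add_comm]
    simp
  · have h1 : ‖x n + star (x n)‖ ≤ 2 * (‖b‖ + 1) := by
      refine (norm_add_le _ _).trans ?_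
      rw [norm_star]
      linarith [hx n]
    calc ‖(2⁻¹ : ℂ) • (x n + star (x n))‖ = 2⁻¹ * ‖x n + star (x n)‖ := by
          rw [norm_smul]; simp
      _ ≤ ‖b‖ + 1 := by linarith
  · have hb3 : Bdd (fun n => x n + star (x n)) := ⟨2 * (‖b‖ + 1), fun n => by
      refine (norm_add_le _ _).trans ?_
      rw [norm_star]
      linarith [hx n]⟩
    rw [mk_smul _ hb3, mk_add hb1 hb2, mk_star hb1, h, hb, ← two_smul ℂ b, smul_smul]
    simp

end Pool.Agent.H.MP_8be301_an.TZ
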