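import Pool.Agent.H.MP_8be301_an.TZ.Sq0

/-!
# Bounded families modulo null families: a C*-algebra

(Adapted from `Pool/Agent/H/MP_7b4a29_c/SQ.lean`, with arbitrary universes.)
-/

open Filter Topology

set_option autoImplicit false

namespace Pool.Agent.H.MP_8be301_an.TZ

variable (I : Ix) {A : I.L → Type*} [∀ l, CStarAlgebra (A l)]

section sq

variable {x y : ∀ l, A l}

/-- The limit superior of the norms. -/
noncomputable def sq_N (x : ∀ l, A l) : ℝ := sInf {C : ℝ | 0 ≤ C ∧ ∀ᶠ l in I.F, ‖x l‖ ≤ C}

theorem sq_N_nonneg (x : ∀ l, A l) : 0 ≤ sq_N I x := Real.sInf_nonneg fun _ h => h.1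

theorem sq_N_le {C : ℝ} (hC : 0 ≤ C) (h : ∀ᶠ l in I.F, ‖x l‖ ≤ C) : sq_N I x ≤ C :=
  csInf_le ⟨0, fun _ h => h.1⟩ ⟨hC, h⟩

theorem sq_N_lt {C : ℝ} (hx : Bd x) (h : sq_N I x < C) : ∀ᶠ l in I.F, ‖x l‖ < C := by
  obtain ⟨C0, hC0⟩ := hx
  have hne : {C : ℝ | 0 ≤ C ∧ ∀ᶠ l in I.F, ‖x l‖ ≤ C}.Nonempty :=
    ⟨max C0 0, le_max_right _ _,
      Filter.Eventually.of_forall fun l => (hC0 l).trans (le_max_left _ _)⟩
  obtain ⟨D, hD, hDC⟩ := exists_lt_of_csInf_lt hne h
  exact hD.2.mono fun l hl => hl.trans_lt hDC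

theorem sq_N_mono (hy : Bd y) (h : Tendsto (fun l => ‖x l - y l‖) I.F (𝓝 0)) :
    sq_N I x ≤ sq_N I y := by
  refine le_of_forall_pos_le_add fun ε hε => ?_
  have h0 := sq_N_nonneg I y
  refine sq_N_le I (by linarith) ?_
  have hε2 : (0 : ℝ) < ε / 2 := by linarith
  filter_upwards [sq_N_lt I hy (show sq_N I y < sq_N I y + ε / 2 by linarith),
    h.eventually_lt_const hε2] with l h1 h2
  have h3 := norm_add_le (x l - y l) (y l)
  rw [sub_add_cancel] at h3
  linarith

theorem sq_N_zero : sq_N I (fun l => (0 : A l)) = 0 := by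
  refine le_antisymm (sq_N_le I le_rfl (Filter.Eventually.of_forall fun l => ?_)) (sq_N_nonneg I _)
  rw [norm_zero]

theorem sq_N_add (hx : Bd x) (hy : Bd y) :
    sq_N I (fun l => x l + y l) ≤ sq_N I x + sq_N I y := by
  refine le_of_forall_pos_le_add fun ε hε => ?_
  have h0 := sq_N_nonneg I y
  have h00 := sq_N_nonneg I x
  refine sq_N_le I (by linarith) ?_
  filter_upwards [sq_N_lt I hy (show sq_N I y < sq_N I y + ε / 2 by linarith),
    sq_N_lt I hx (show sq_N I x < sq_N I x + ε / 2 by linarith)] with l h1 h2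
  have h3 := norm_add_le (x l) (y l)
  linarith

theorem sq_N_mul (hx : Bd x) (hy : Bd y) :
    sq_N I (fun l => x l * y l) ≤ sq_N I x * sq_N I y := by
  have h0 := sq_N_nonneg I y
  have h00 := sq_N_nonneg I x
  have h1 : ∀ δ : ℝ, 0 < δ → sq_N I (fun l => x l * y l) ≤
      (sq_N I x + δ) * (sq_N I y + δ) := by
    intro δ hδ
    refine sq_N_le I (mul_nonneg (by linarith) (by linarith)) ?_
    filter_upwards [sq_N_lt I hy (show sq_N I y < sq_N I y + δ by linarith),
      sq_N_lt I hx (show sq_N I x < sq_N I x + δ by linarith)] with l h1 h2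
    exact (norm_mul_le _ _).trans (mul_le_mul h2.le h1.le (norm_nonneg _) (by linarith))
  have h2 : Tendsto (fun δ : ℝ => (sq_N I x + δ) * (sq_N I y + δ)) (𝓝[>] 0)
      (𝓝 (sq_N I x * sq_N I y)) := by
    have hc : Continuous (fun δ : ℝ => (sq_N I x + δ) * (sq_N I y + δ)) := by fun_prop
    have h3 := (hc.tendsto 0).mono_left (nhdsWithin_le_nhds (s := Set.Ioi 0))
    simpa using h3
  refine ge_of_tendsto h2 ?_
  filter_upwards [self_mem_nhdsWithin] with δ hδ
  exact h1 δ hδ

theorem sq_N_star_mul (hx : Bd x) :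
    sq_N I x * sq_N I x ≤ sq_N I (fun l => star (x l) * x l) := by
  refine le_of_forall_pos_le_add fun ε hε => ?_
  obtain ⟨M, hM⟩ : ∃ M, M = sq_N I (fun l => star (x l) * x l) := ⟨_, rfl⟩
  have hM0 : 0 ≤ M := hM ▸ sq_N_nonneg I _
  have hb : Bd (fun l => star (x l) * x l) := Bd.mul hx.star hx
  have h1 : sq_N I x ≤ √(M + ε) := by
    refine sq_N_le I (Real.sqrt_nonneg _) ?_
    filter_upwards [sq_N_lt I hb (show sq_N I (fun l => star (x l) * x l) < M + ε by
      rw [← hM]; linarith)] with l hl
    rw [CStarRing.norm_star_mul_self] at hl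
    apply Real.le_sqrt_of_sq_le
    rw [sq]
    exact hl.le
  rw [← hM]
  calc sq_N I x * sq_N I x ≤ √(M + ε) * √(M + ε) :=
        mul_le_mul h1 h1 (sq_N_nonneg I x) (Real.sqrt_nonneg _)
    _ = M + ε := Real.mul_self_sqrt (by linarith)

theorem sq_N_smul (c : ℂ) (hx : Bd x) :
    sq_N I (fun l => c • x l) ≤ ‖c‖ * sq_N I x := by
  refine le_of_forall_pos_le_add fun ε hε => ?_
  have h0 := sq_N_nonneg I x
  have hc := norm_nonneg c
  have hc1 : 0 < ‖c‖ + 1 := by linarith
  have hδ : 0 < ε / (‖c‖ + 1) := div_pos hε hc1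
  have h2 : ‖c‖ * (ε / (‖c‖ + 1)) ≤ ε := by
    calc ‖c‖ * (ε / (‖c‖ + 1)) ≤ (‖c‖ + 1) * (ε / (‖c‖ + 1)) :=
          mul_le_mul_of_nonneg_right (by linarith) hδ.le
      _ = ε := by field_simp
  refine sq_N_le I (by positivity) ?_
  filter_upwards [sq_N_lt I hx (show sq_N I x < sq_N I x + ε / (‖c‖ + 1) by linarith)] with l h1
  rw [norm_smul]
  have h3 := mul_le_mul_of_nonneg_left h1.le hc
  rw [mul_add] at h3
  linarith

theorem sq_N_neg : sq_N I (fun l => -x l) = sq_N I x := by
  unfold sq_N
  simp only [norm_neg]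

theorem sq_N_eq_zero (hx : Bd x) :
    sq_N I x = 0 ↔ Tendsto (fun l => ‖x l‖) I.F (𝓝 0) := by
  constructor
  · intro h
    rw [Metric.tendsto_nhds]
    intro ε hε
    filter_upwards [sq_N_lt I hx (show sq_N I x < ε by rw [h]; exact hε)] with l hl
    rw [Real.dist_eq, sub_zero, abs_of_nonneg (norm_nonneg _)]
    exact hl
  · intro h
    refine le_antisymm ?_ (sq_N_nonneg I x)
    rw [← sq_N_zero I (A := A)]
    refine sq_N_mono I Bd.zero ?_
    simpa using h

/-- The norm of a class. -/
noncomputable def sq_norm (a : (nullCon I A).Quotient) : ℝ :=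
  Quotient.liftOn' a (fun f => sq_N I f.1) (fun f g h => by
    have h1 : Tendsto (fun l => ‖f.1 l - g.1 l‖) I.F (𝓝 0) := h
    have h2 : Tendsto (fun l => ‖g.1 l - f.1 l‖) I.F (𝓝 0) := by
      have e : (fun l => ‖g.1 l - f.1 l‖) = fun l => ‖f.1 l - g.1 l‖ := by
        funext l
        exact norm_sub_rev _ _
      rw [e]
      exact h1
    exact le_antisymm (sq_N_mono I g.2 h1) (sq_N_mono I f.2 h2))

theorem sq_norm_coe (f : BF I A) : sq_norm I (f : (nullCon I A).Quotient) = sq_N I f.1 := rfl

/-- The ring norm. -/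
noncomputable def sq_RN : RingNorm (nullCon I A).Quotient where
  toFun := sq_norm I
  map_zero' := sq_N_zero I
  add_le' := by
    intro a b
    induction a using Quotient.inductionOn' with
    | h f =>
      induction b using Quotient.inductionOn' with
      | h g => exact sq_N_add I f.2 g.2
  neg' := by
    intro a
    induction a using Quotient.inductionOn' with
    | h f => exact sq_N_neg I
  mul_le' := by
    intro a b
    induction a using Quotient.inductionOn' with
    | h f =>
      induction b using Quotient.inductionOn' with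
      | h g => exact sq_N_mul I f.2 g.2
  eq_zero_of_map_eq_zero' := by
    intro a h
    induction a using Quotient.inductionOn' with
    | h f =>
      have h1 := (sq_N_eq_zero I f.2).1 h
      change (f : (nullCon I A).Quotient) = ((0 : BF I A) : (nullCon I A).Quotient)
      rw [RingCon.eq]
      change Tendsto (fun l => ‖f.1 l - (0 : BF I A).1 l‖) I.F (𝓝 0)
      have e : (fun l => ‖f.1 l - (0 : BF I A).1 l‖) = fun l => ‖f.1 l‖ := by
        funext l
        change ‖f.1 l - 0‖ = _
        rw [sub_zero]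
      rw [e]
      exact h1

/-- The star operation. -/
@[reducible] noncomputable def sq_star : Star (nullCon I A).Quotient where
  star := Quotient.map' (fun f : BF I A => star f) (by
    intro f g h
    have h' : Tendsto (fun l => ‖f.1 l - g.1 l‖) I.F (𝓝 0) := h
    change Tendsto (fun l => ‖star (f.1 l) - star (g.1 l)‖) I.F (𝓝 0)
    have e : (fun l => ‖star (f.1 l) - star (g.1 l)‖) = fun l => ‖f.1 l - g.1 l‖ := by
      funext l
      rw [← star_sub, norm_star]
    rw [e]
    exact h')

/-- The star ring structure. -/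
@[reducible] noncomputable def sq_starRing : StarRing (nullCon I A).Quotient where
  toStar := sq_star I
  star_involutive := by
    intro a
    induction a using Quotient.inductionOn' with
    | h f =>
      change (((star (star f) : BF I A)) : (nullCon I A).Quotient) = (f : (nullCon I A).Quotient)
      rw [star_star]
  star_mul := by
    intro a b
    induction a using Quotient.inductionOn' with
    | h f =>
      induction b using Quotient.inductionOn' with
      | h g =>
        change (((star (f * g) : BF I A)) : (nullCon I A).Quotient) =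
          ((star g * star f : BF I A) : (nullCon I A).Quotient)
        rw [star_mul]
  star_add := by
    intro a b
    induction a using Quotient.inductionOn' with
    | h f =>
      induction b using Quotient.inductionOn' with
      | h g =>
        change (((star (f + g) : BF I A)) : (nullCon I A).Quotient) =
          ((star f + star g : BF I A) : (nullCon I A).Quotient)
        rw [star_add]

/-- Completeness, in terms of families. -/
theorem sq_complete (u : ℕ → ∀ l, A l) (hu : ∀ n, Bd (u n))
    (h : ∀ n, sq_N I (fun l => u (n + 1) l - u n l) < (1 / 2 : ℝ) ^ n) :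
    ∃ z : ∀ l, A l, Bd z ∧ ∀ n, sq_N I (fun l => u n l - z l) ≤ (1 / 2 : ℝ) ^ n * 2 := by
  classical
  let d : ℕ → ∀ l, A l := fun n l =>
    if ‖u (n + 1) l - u n l‖ < (1 / 2 : ℝ) ^ n then u (n + 1) l - u n l else 0
  have hd : ∀ n l, ‖d n l‖ ≤ (1 / 2 : ℝ) ^ n := by
    intro n l
    by_cases hc : ‖u (n + 1) l - u n l‖ < (1 / 2 : ℝ) ^ n
    · have e : d n l = u (n + 1) l - u n l := if_pos hc
      rw [e]
      exact hc.le
    · have e : d n l = 0 := if_neg hc
      rw [e, norm_zero]
      positivity
  have hgeo : Summable (fun n : ℕ => (1 / 2 : ℝ) ^ n) := summable_geometric_two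
  have hgs : ∑' n : ℕ, (1 / 2 : ℝ) ^ n = 2 := tsum_geometric_two
  have hsum : ∀ l, Summable (fun n => d n l) := fun l =>
    Summable.of_norm_bounded hgeo (fun n => hd n l)
  have htail : ∀ n l, ‖∑' k, d (k + n) l‖ ≤ (1 / 2 : ℝ) ^ n * 2 := by
    intro n l
    have h1 : HasSum (fun k : ℕ => (1 / 2 : ℝ) ^ n * (1 / 2 : ℝ) ^ k) ((1 / 2 : ℝ) ^ n * 2) := by
      have h2 := hgeo.hasSum.mul_left ((1 / 2 : ℝ) ^ n)
      rwa [hgs] at h2
    refine tsum_of_norm_bounded h1 fun k => ?_
    have h3 := hd (k + n) l
    rwa [pow_add, mul_comm] at h3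
  obtain ⟨C0, hC0⟩ := hu 0
  refine ⟨fun l => u 0 l + ∑' k, d k l, ⟨C0 + 2, fun l => ?_⟩, fun n => ?_⟩
  · have h1 := htail 0 l
    simp only [add_zero, pow_zero, one_mul] at h1
    exact (norm_add_le _ _).trans (add_le_add (hC0 l) h1)
  · refine sq_N_le I (by positivity) ?_
    have hev : ∀ᶠ l in I.F, ∀ k < n, d k l = u (k + 1) l - u k l := by
      have h1 : ∀ k ∈ Finset.range n, ∀ᶠ l in I.F, d k l = u (k + 1) l - u k l := by
        intro k _
        filter_upwards [sq_N_lt I ((hu (k + 1)).sub (hu k)) (h k)] with l hl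
        exact if_pos hl
      have h2 := (Filter.eventually_all_finset (Finset.range n)).2 h1
      filter_upwards [h2] with l hl k hk
      exact hl k (Finset.mem_range.2 hk)
    filter_upwards [hev] with l hl
    have h1 : ∑ k ∈ Finset.range n, d k l = u n l - u 0 l := by
      rw [← Finset.sum_range_sub (fun k => u k l) n]
      exact Finset.sum_congr rfl fun k hk => hl k (Finset.mem_range.1 hk)
    have h2 : u n l - (u 0 l + ∑' k, d k l) = -∑' k, d (k + n) l := by
      rw [← (hsum l).sum_add_tsum_nat_add n, h1]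
      abel
    rw [h2, norm_neg]
    exact htail n l

/-- The C*-algebra structure of the quotient. -/
@[reducible] noncomputable def sq_C : CStarAlgebra (nullCon I A).Quotient :=
  letI : NormedRing (nullCon I A).Quotient := (sq_RN I).toNormedRing
  letI : StarRing (nullCon I A).Quotient := sq_starRing I
  { (sq_RN I).toNormedRing, sq_starRing I,
    (inferInstance : Algebra ℂ (nullCon I A).Quotient) with
    complete := by
      have hcs : CompleteSpace (nullCon I A).Quotient := by
        refine Metric.complete_of_convergent_controlled_sequences (fun n => (1 / 2 : ℝ) ^ n)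
          (fun n => by positivity) ?_
        intro a ha
        have hdist : ∀ f g : BF I A, dist (f : (nullCon I A).Quotient) (g : (nullCon I A).Quotient) =
            sq_N I (fun l => f.1 l - g.1 l) := by
          intro f g
          rw [dist_eq_norm]
          rfl
        have hrep : ∀ n, ∃ f : BF I A, (f : (nullCon I A).Quotient) = a n := fun n =>
          Quotient.exists_rep (a n)
        choose f hf using hrep
        obtain ⟨z, hz, hzn⟩ := sq_complete I (fun n => (f n).1) (fun n => (f n).2) (by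
          intro n
          have h1 := ha n (n + 1) n (Nat.le_succ n) le_rfl
          rw [← hf, ← hf, hdist] at h1
          exact h1)
        refine ⟨((⟨z, hz⟩ : BF I A) : (nullCon I A).Quotient), ?_⟩
        rw [tendsto_iff_dist_tendsto_zero]
        refine squeeze_zero (fun n => dist_nonneg) (fun n => ?_)
          (g := fun n => (1 / 2 : ℝ) ^ n * 2) ?_
        · rw [← hf, hdist]
          exact hzn n
        · have h1 := (tendsto_pow_atTop_nhds_zero_of_lt_one (r := (1 / 2 : ℝ))
            (by norm_num) (by norm_num)).mul_const 2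
          rwa [zero_mul] at h1
      intro F hF
      exact hcs.complete hF
    norm_mul_self_le := by
      intro a
      induction a using Quotient.inductionOn' with
      | h f => exact sq_N_star_mul I f.2
    norm_smul_le := by
      intro c a
      induction a using Quotient.inductionOn' with
      | h f => exact sq_N_smul I c f.2
    star_smul := by
      intro c a
      induction a using Quotient.inductionOn' with
      | h f =>
        change (((star (c • f) : BF I A)) : (nullCon I A).Quotient) =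
          (((star c) • (star f) : BF I A) : (nullCon I A).Quotient)
        rw [star_smul] }

end sq

/-- The C*-algebra structure of `SQ I A`.

The ring structure is that of the quotient ring `(nullCon I A).Quotient`, the star operation and the scalar multiplication are induced
from `BF I A`, and the norm is `‖class x‖ = limsup ‖x l‖` along `I.F` (for bounded families). It is a
C*-norm because `‖star x * x‖ = ‖x‖ ^ 2` in every `A l` and `limsup (f ^ 2) = (limsup f) ^ 2`.
`‖class x‖ = 0` iff `‖x l‖ → 0`.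
Completeness: let `a_n` be a sequence of classes with `‖a_{n+1} - a_n‖ < 2^{-n}` (every Cauchy
sequence has such a subsequence: `cauchySeq_tendsto_of_complete`-type criteria, for instance
`Metric.complete_of_convergent_controlled_sequences` or summable series
`NormedAddCommGroup.completeSpace_of_summable_imp_tendsto`). Choose representatives `d_n` of
`a_{n+1} - a_n` with `‖d_n l‖ ≤ 2^{-n}` for ALL `l` (set `d_n l = 0` where the estimate fails; this
changes `d_n` only outside a set of the filter) and `x_0` of `a_0`. The family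
`x = x_0 + ∑ d_n` (absolutely convergent in every `A l`) is bounded and
`‖x - (x_0 + ∑_{k<n} d_k)‖ ≤ 2^{1-n}` everywhere, so that `a_n → class x`. -/
noncomputable instance SQ.instC : CStarAlgebra (SQ I A) := sq_C I

open Classical in
/-- The class of a family (`0` if the family is not bounded). -/
noncomputable def cl (x : ∀ l, A l) : SQ I A :=
  if h : Bd x then ((⟨x, h⟩ : BF I A) : (nullCon I A).Quotient) else 0

theorem cl_surj (a : SQ I A) : ∃ x : ∀ l, A l, Bd x ∧ cl I x = a := by
  obtain ⟨f, hf⟩ := Quotient.exists_rep (s := (nullCon I A).toSetoid) a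
  refine ⟨f.1, f.2, ?_⟩
  have hb : Bd f.1 := f.2
  unfold cl
  rw [dif_pos hb]
  exact hf

variable {x y : ∀ l, A l}

theorem cl_eq_iff (hx : Bd x) (hy : Bd y) :
    cl I x = cl I y ↔ Tendsto (fun l => ‖x l - y l‖) I.F (𝓝 0) := by
  unfold cl
  rw [dif_pos hx, dif_pos hy]
  exact RingCon.eq (nullCon I A)

theorem cl_congr (hx : Bd x) (hy : Bd y) (h : ∀ᶠ l in I.F, x l = y l) : cl I x = cl I y := by
  rw [cl_eq_iff I hx hy]
  refine Tendsto.congr' ?_ tendsto_const_nhds
  filter_upwards [h] with l hl
  rw [hl, sub_self, norm_zero]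

theorem cl_eq_zero_iff (hx : Bd x) : cl I x = 0 ↔ Tendsto (fun l => ‖x l‖) I.F (𝓝 0) := by
  have h0 : cl I (fun l => (0 : A l)) = 0 := by
    unfold cl
    rw [dif_pos Bd.zero]
    rfl
  rw [← h0, cl_eq_iff I hx Bd.zero]
  simp only [sub_zero]

theorem cl_zero : cl I (fun l => (0 : A l)) = 0 := by
  unfold cl
  rw [dif_pos Bd.zero]
  rfl

theorem cl_one : cl I (fun l => (1 : A l)) = 1 := by
  unfold cl
  rw [dif_pos Bd.one]
  rfl

theorem cl_add (hx : Bd x) (hy : Bd y) : cl I (fun l => x l + y l) = cl I x + cl I y := by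
  unfold cl
  rw [dif_pos hx, dif_pos hy, dif_pos (Bd.add hx hy)]
  rfl

theorem cl_sub (hx : Bd x) (hy : Bd y) : cl I (fun l => x l - y l) = cl I x - cl I y := by
  unfold cl
  rw [dif_pos hx, dif_pos hy, dif_pos (Bd.sub hx hy)]
  rfl

theorem cl_neg (hx : Bd x) : cl I (fun l => -x l) = -cl I x := by
  have hn : Bd (fun l => -x l) := by
    obtain ⟨C, hC⟩ := hx
    exact ⟨C, fun l => by rw [norm_neg]; exact hC l⟩
  unfold cl
  rw [dif_pos hx, dif_pos hn]
  rfl

theorem cl_mul (hx : Bd x) (hy : Bd y) : cl I (fun l => x l * y l) = cl I x * cl I y := by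
  unfold cl
  rw [dif_pos hx, dif_pos hy, dif_pos (Bd.mul hx hy)]
  rfl

theorem cl_smul (c : ℂ) (hx : Bd x) : cl I (fun l => c • x l) = c • cl I x := by
  unfold cl
  rw [dif_pos hx, dif_pos (Bd.smul c hx)]
  rfl

theorem cl_star (hx : Bd x) : cl I (fun l => star (x l)) = star (cl I x) := by
  unfold cl
  rw [dif_pos hx, dif_pos (Bd.star hx)]
  rfl

theorem cl_algebraMap (c : ℂ) :
    cl I (fun l => algebraMap ℂ (A l) c) = algebraMap ℂ (SQ I A) c := by
  have h1 : (fun l => algebraMap ℂ (A l) c) = fun l => c • (1 : A l) := by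
    funext l
    exact Algebra.algebraMap_eq_smul_one c
  rw [h1, cl_smul I c Bd.one, cl_one, Algebra.algebraMap_eq_smul_one]

theorem Bd.sum {κ : Type*} (s : Finset κ) (z : κ → ∀ l, A l) (h : ∀ k ∈ s, Bd (z k)) :
    Bd (fun l => ∑ k ∈ s, z k l) := by
  classical
  induction s using Finset.induction_on with
  | empty =>
    simp only [Finset.sum_empty]
    exact Bd.zero
  | insert a s ha ih =>
    simp only [Finset.sum_insert ha]
    exact Bd.add (h a (Finset.mem_insert_self a s))
      (ih fun k hk => h k (Finset.mem_insert_of_mem hk))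

theorem cl_sum {κ : Type*} (s : Finset κ) (z : κ → ∀ l, A l) (h : ∀ k ∈ s, Bd (z k)) :
    cl I (fun l => ∑ k ∈ s, z k l) = ∑ k ∈ s, cl I (z k) := by
  classical
  induction s using Finset.induction_on with
  | empty =>
    simp only [Finset.sum_empty]
    exact cl_zero I
  | insert a s ha ih =>
    simp only [Finset.sum_insert ha]
    have h1 := h a (Finset.mem_insert_self a s)
    have h2 : ∀ k ∈ s, Bd (z k) := fun k hk => h k (Finset.mem_insert_of_mem hk)
    rw [cl_add I h1 (Bd.sum I s z h2), ih h2]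

theorem norm_cl_le {C : ℝ} (hC : 0 ≤ C) (hx : Bd x) (h : ∀ᶠ l in I.F, ‖x l‖ ≤ C) :
    ‖cl I x‖ ≤ C := by
  have h1 : ‖cl I x‖ = sq_N I x := by
    unfold cl
    rw [dif_pos hx]
    rfl
  rw [h1]
  exact sq_N_le I hC h

theorem eventually_norm_lt {C : ℝ} (hx : Bd x) (h : ‖cl I x‖ < C) : ∀ᶠ l in I.F, ‖x l‖ < C := by
  have h1 : ‖cl I x‖ = sq_N I x := by
    unfold cl
    rw [dif_pos hx]
    rfl
  rw [h1] at h
  exact sq_N_lt I hx h

/-- Representatives that are bounded everywhere by `‖a‖ + 1`. Proof: replace the value by `0` where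
the estimate fails (`eventually_norm_lt`, `cl_congr`). -/
theorem exists_rep (a : SQ I A) : ∃ x : ∀ l, A l, (∀ l, ‖x l‖ ≤ ‖a‖ + 1) ∧ cl I x = a := by
  classical
  obtain ⟨x, hx, rfl⟩ := cl_surj I a
  have h1 := eventually_norm_lt I hx (show ‖cl I x‖ < ‖cl I x‖ + 1 by linarith)
  have hle : ∀ l, ‖(if ‖x l‖ < ‖cl I x‖ + 1 then x l else 0)‖ ≤ ‖cl I x‖ + 1 := by
    intro l
    split_ifs with hc
    · exact hc.le
    · rw [norm_zero]
      positivity
  refine ⟨fun l => if ‖x l‖ < ‖cl I x‖ + 1 then x l else 0, hle, ?_⟩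
  refine cl_congr I ⟨_, hle⟩ hx ?_
  filter_upwards [h1] with l hl
  exact if_pos hl

/-- A chosen representative. -/
noncomputable def SQ.rep (a : SQ I A) : ∀ l, A l := (exists_rep I a).choose

theorem SQ.norm_rep_le (a : SQ I A) (l : I.L) : ‖SQ.rep I a l‖ ≤ ‖a‖ + 1 :=
  (exists_rep I a).choose_spec.1 l

theorem SQ.rep_bd (a : SQ I A) : Bd (SQ.rep I a) := ⟨‖a‖ + 1, SQ.norm_rep_le I a⟩

theorem SQ.cl_rep (a : SQ I A) : cl I (SQ.rep I a) = a := (exists_rep I a).choose_spec.2

end Pool.Agent.H.MP_8be301_an.TZ
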