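import Pool.Agent.H.MP_8be301_an.TZ.Sq1

/-!
# Homomorphisms between the algebras `SQ I A`
-/

open Filter Topology

set_option autoImplicit false

namespace Pool.Agent.H.MP_8be301_an.TZ

variable (I : Ix) {A B : I.L → Type*} [∀ l, CStarAlgebra (A l)] [∀ l, CStarAlgebra (B l)]

theorem Bd.map {x : ∀ l, A l} (φ : ∀ l, A l →⋆ₐ[ℂ] B l) (hx : Bd x) :
    Bd (fun l => φ l (x l)) := by
  obtain ⟨C, hC⟩ := hx
  exact ⟨C, fun l => (NonUnitalStarAlgHom.norm_apply_le (φ l) (x l)).trans (hC l)⟩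

/-- The class does not depend on the representative. -/
theorem sqmap_cl (φ : ∀ l, A l →⋆ₐ[ℂ] B l) {x y : ∀ l, A l} (hx : Bd x) (hy : Bd y)
    (h : cl I x = cl I y) : cl I (fun l => φ l (x l)) = cl I (fun l => φ l (y l)) := by
  rw [cl_eq_iff I hx hy] at h
  rw [cl_eq_iff I (Bd.map I φ hx) (Bd.map I φ hy)]
  refine squeeze_zero (fun l => norm_nonneg _) (fun l => ?_) h
  rw [← map_sub]
  exact NonUnitalStarAlgHom.norm_apply_le (φ l) (x l - y l)

theorem sqmap_rep (φ : ∀ l, A l →⋆ₐ[ℂ] B l) {x : ∀ l, A l} (hx : Bd x) :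
    cl I (fun l => φ l (SQ.rep I (cl I x) l)) = cl I (fun l => φ l (x l)) :=
  sqmap_cl I φ (SQ.rep_bd I _) hx (SQ.cl_rep I _)

/-- A family of homomorphisms induces a homomorphism. All proofs: `cl_rep`, `cl_mul`, …, `map_cl`. -/
noncomputable def SQ.map (φ : ∀ l, A l →⋆ₐ[ℂ] B l) : SQ I A →⋆ₐ[ℂ] SQ I B where
  toFun a := cl I (fun l => φ l (SQ.rep I a l))
  map_one' := by
    have h := sqmap_rep I φ (x := fun l => (1 : A l)) Bd.one
    rw [cl_one] at h
    rw [h]
    simp only [map_one]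
    exact cl_one I
  map_mul' := by
    intro a b
    have ha := SQ.rep_bd I a
    have hb := SQ.rep_bd I b
    have h := sqmap_rep I φ (Bd.mul ha hb)
    rw [cl_mul I ha hb, SQ.cl_rep, SQ.cl_rep] at h
    rw [h, ← cl_mul I (Bd.map I φ ha) (Bd.map I φ hb)]
    simp only [map_mul]
  map_zero' := by
    have h := sqmap_rep I φ (x := fun l => (0 : A l)) Bd.zero
    rw [cl_zero] at h
    rw [h]
    simp only [map_zero]
    exact cl_zero I
  map_add' := by
    intro a b
    have ha := SQ.rep_bd I a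
    have hb := SQ.rep_bd I b
    have h := sqmap_rep I φ (Bd.add ha hb)
    rw [cl_add I ha hb, SQ.cl_rep, SQ.cl_rep] at h
    rw [h, ← cl_add I (Bd.map I φ ha) (Bd.map I φ hb)]
    simp only [map_add]
  commutes' := by
    intro c
    have hc : Bd (fun l => algebraMap ℂ (A l) c) := by
      have h1 : (fun l => algebraMap ℂ (A l) c) = fun l => c • (1 : A l) := by
        funext l
        exact Algebra.algebraMap_eq_smul_one c
      rw [h1]
      exact Bd.smul c Bd.one
    have h := sqmap_rep I φ hc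
    rw [cl_algebraMap] at h
    rw [h]
    simp only [AlgHomClass.commutes]
    exact cl_algebraMap I c
  map_star' := by
    intro a
    have ha := SQ.rep_bd I a
    have h := sqmap_rep I φ (Bd.star ha)
    rw [cl_star I ha, SQ.cl_rep] at h
    change cl I (fun l => φ l (SQ.rep I (star a) l)) = star (cl I (fun l => φ l (SQ.rep I a l)))
    rw [h, ← cl_star I (Bd.map I φ ha)]
    simp only [map_star]

theorem SQ.map_cl (φ : ∀ l, A l →⋆ₐ[ℂ] B l) {x : ∀ l, A l} (hx : Bd x) :
    SQ.map I φ (cl I x) = cl I (fun l => φ l (x l)) :=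
  sqmap_rep I φ hx

theorem SQ.map_id (a : SQ I A) : SQ.map I (fun l => StarAlgHom.id ℂ (A l)) a = a := by
  change cl I (fun l => StarAlgHom.id ℂ (A l) (SQ.rep I a l)) = a
  exact SQ.cl_rep I a

theorem SQ.map_comp {C : I.L → Type*} [∀ l, CStarAlgebra (C l)] (φ : ∀ l, A l →⋆ₐ[ℂ] B l)
    (ψ : ∀ l, B l →⋆ₐ[ℂ] C l) (a : SQ I A) :
    SQ.map I ψ (SQ.map I φ a) = SQ.map I (fun l => (ψ l).comp (φ l)) a := by
  have h : SQ.map I φ a = cl I (fun l => φ l (SQ.rep I a l)) := rfl
  rw [h, SQ.map_cl I ψ (Bd.map I φ (SQ.rep_bd I a))]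
  rfl

theorem Bd.const (P : Type*) [CStarAlgebra P] {L : Type} (a : P) : Bd (fun _ : L => a) :=
  ⟨‖a‖, fun _ => le_rfl⟩

/-- Constant families. -/
noncomputable def cst (P : Type*) [CStarAlgebra P] : P →⋆ₐ[ℂ] SQ I (fun _ => P) where
  toFun a := cl I (fun _ => a)
  map_one' := cl_one I
  map_mul' := by
    intro a b
    exact cl_mul I (Bd.const P a) (Bd.const P b)
  map_zero' := cl_zero I
  map_add' := by
    intro a b
    exact cl_add I (Bd.const P a) (Bd.const P b)
  commutes' := by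
    intro c
    exact cl_algebraMap I c
  map_star' := by
    intro a
    exact cl_star I (Bd.const P a)

theorem cst_apply (P : Type*) [CStarAlgebra P] (a : P) :
    cst I P a = cl I (fun _ => a) := rfl

theorem norm_cst (P : Type*) [CStarAlgebra P] (a : P) : ‖cst I P a‖ = ‖a‖ := by
  rw [cst_apply]
  refine le_antisymm (norm_cl_le I (norm_nonneg a) (Bd.const P a)
    (Filter.Eventually.of_forall fun _ => le_rfl)) ?_
  by_contra hlt
  rw [not_le] at hlt
  have h := eventually_norm_lt I (Bd.const P a) hlt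
  obtain ⟨l, hl⟩ := h.exists
  exact lt_irrefl _ hl

end Pool.Agent.H.MP_8be301_an.TZ
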