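import Pool.Agent.H.MP_8be301_an.TZ.Rc

/-!
# Twisted commutators are sums of products with disjoint left and right factors  (module Tc)

`n` large, `δ = 1 / n`, `ten j t = max 0 (1 - |n t - j|)` for `j ∈ {-n, .., n}` (integers; index set `Fin (2 n + 1)` or
`Finset.Icc (-n) n`): continuous, `≥ 0`, `∑_j ten j t = 1` for `|t| ≤ 1`, `ten i * ten j = 0` if `|i - j| ≥ 2`, `|t - j / n| ≤ 1 / n` where
`ten j t ≠ 0`. `g j = √(ten j)`. `x` self-adjoint, `‖x‖ ≤ 1` (spectrum in `[-1, 1]`), `G j = cfc (g j) x`, `∑ G j * G j = 1`. `x y - y φ x =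
∑_{i,j} G i * G i * (x y - y φ x) * φ (G j * G j)`. For `i - j ∈ {-1, 0, 1}` fixed, `∑_i G i * (G i * (x y - y φ x) * φ (G j)) * φ (G j)` has
norm at most `4 / n` by `rowcol`: `G i * (x y - y φ x) * φ (G j) = (G i * (x - i / n)) * y * φ (G j) - G i * y * φ ((x - i / n) * G j)`, norms
`≤ 1 / n` and `≤ 2 / n`. For `|i - j| ≥ 2`: the term is `(G i * G i * x) * y * φ (G j * G j) - (G i * G i) * y * φ (x * G j * G j)`, two
products `a * y * φ b` with `a * b = 0` (put the sign into `a`). The number of pairs depends only on `n`. All `a`, `b` are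
`cfc` of real functions in `x`; `z` commutes with `cfc f x` if it commutes with the self-adjoint `x` (`IsSelfAdjoint.commute_cfc`
or `Commute.cfc`, `cfc_commute_cfc`).
-/

set_option autoImplicit false

namespace Pool.Agent.H.MP_8be301_an.TZ

open Pool.Agent.H.MP_8be301_an.RD

/-- The hat function. -/
noncomputable def Tc_hat (u : ℝ) : ℝ := max 0 (1 - |u|)

/-- The clamp function. -/
noncomputable def Tc_F (u : ℝ) : ℝ := max 0 (min 1 u)

theorem Tc_hat_eq (u : ℝ) : Tc_hat u = Tc_F (u + 1) - Tc_F u := by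
  unfold Tc_hat Tc_F
  rcases le_total u 0 with h0 | h0
  · rw [abs_of_nonpos h0, min_eq_right (by linarith : u ≤ 1), max_eq_left h0,
      min_eq_right (by linarith : u + 1 ≤ 1), sub_zero]
    congr 1
    ring
  · rw [abs_of_nonneg h0, min_eq_left (by linarith : (1 : ℝ) ≤ u + 1),
      max_eq_right (by norm_num : (0 : ℝ) ≤ 1)]
    rcases le_total u 1 with h1 | h1
    · rw [max_eq_right (by linarith), min_eq_right h1, max_eq_right h0]
    · rw [max_eq_left (by linarith), min_eq_left h1, max_eq_right (by norm_num)]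
      ring

theorem Tc_F_nonneg (u : ℝ) : 0 ≤ Tc_F u := le_max_left _ _

theorem Tc_F_le (u : ℝ) : Tc_F u ≤ 1 := max_le (by norm_num) (min_le_left _ _)

theorem Tc_hat_nonneg (u : ℝ) : 0 ≤ Tc_hat u := le_max_left _ _

theorem Tc_hat_le (u : ℝ) : Tc_hat u ≤ 1 :=
  max_le (by norm_num) (by linarith [abs_nonneg u])

theorem Tc_sum_eq (N : ℕ) (s : ℝ) :
    ∑ i : Fin N, Tc_hat (s - (i : ℕ)) = Tc_F (s + 1) - Tc_F (s - N + 1) := by
  rw [Fin.sum_univ_eq_sum_range (fun i : ℕ => Tc_hat (s - (i : ℝ))) N]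
  have h : ∀ i : ℕ, Tc_hat (s - (i : ℝ)) =
      (fun i : ℕ => Tc_F (s - (i : ℝ) + 1)) i - (fun i : ℕ => Tc_F (s - (i : ℝ) + 1)) (i + 1) := by
    intro i
    rw [Tc_hat_eq]
    simp only [Nat.cast_add, Nat.cast_one]
    congr 2
    ring
  rw [Finset.sum_congr rfl (fun i _ => h i), Finset.sum_range_sub']
  simp

theorem Tc_sum_le (N : ℕ) (s : ℝ) : ∑ i : Fin N, Tc_hat (s - (i : ℕ)) ≤ 1 := by
  rw [Tc_sum_eq]
  linarith [Tc_F_nonneg (s - N + 1), Tc_F_le (s + 1)]

theorem Tc_sum_one (n : ℕ) (s : ℝ) (h0 : 0 ≤ s) (h1 : s ≤ 2 * n) :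
    ∑ i : Fin (2 * n + 1), Tc_hat (s - (i : ℕ)) = 1 := by
  rw [Tc_sum_eq]
  unfold Tc_F
  rw [min_eq_left (by linarith), max_eq_right (by norm_num), max_eq_left, sub_zero]
  refine le_trans (min_le_right _ _) ?_
  push_cast
  linarith

/-- The wide hat function. -/
noncomputable def Tc_wide (u : ℝ) : ℝ := Tc_hat (u - 1) + Tc_hat u + Tc_hat (u + 1)

theorem Tc_wide_nonneg (u : ℝ) : 0 ≤ Tc_wide u := by
  unfold Tc_wide
  linarith [Tc_hat_nonneg (u - 1), Tc_hat_nonneg u, Tc_hat_nonneg (u + 1)]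

theorem Tc_wide_eq (u : ℝ) : Tc_wide u = Tc_F (u + 2) - Tc_F (u - 1) := by
  unfold Tc_wide
  rw [Tc_hat_eq, Tc_hat_eq, Tc_hat_eq]
  rw [show u - 1 + 1 = u by ring, show u + 1 + 1 = u + 2 by ring]
  ring

theorem Tc_wide_le (u : ℝ) : Tc_wide u ≤ 1 := by
  rw [Tc_wide_eq]
  linarith [Tc_F_nonneg (u - 1), Tc_F_le (u + 2)]

theorem Tc_wide_one {u : ℝ} (h : |u| ≤ 1) : Tc_wide u = 1 := by
  rw [abs_le] at h
  rw [Tc_wide_eq]
  unfold Tc_F
  rw [min_eq_left (by linarith [h.1]), max_eq_right (by norm_num), max_eq_left, sub_zero]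
  exact le_trans (min_le_right _ _) (by linarith [h.2])

theorem Tc_wide_zero {u : ℝ} (h : 2 ≤ |u|) : Tc_wide u = 0 := by
  rw [Tc_wide_eq]
  unfold Tc_F
  rcases le_abs.1 h with h | h
  · rw [min_eq_left (by linarith), min_eq_left (by linarith)]
    simp
  · rw [max_eq_left (le_trans (min_le_right _ _) (by linarith)),
      max_eq_left (le_trans (min_le_right _ _) (by linarith))]
    simp

theorem Tc_hat_zero {u : ℝ} (h : 1 ≤ |u|) : Tc_hat u = 0 := by
  unfold Tc_hat
  exact max_eq_left (by linarith)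

theorem Tc_hat_mul (u : ℝ) : Tc_hat u * (1 - Tc_wide u) = 0 := by
  rcases le_total |u| 1 with h | h
  · rw [Tc_wide_one h]
    simp
  · rw [Tc_hat_zero h]
    simp

theorem Tc_sum_wide (N : ℕ) (s : ℝ) : ∑ i : Fin N, Tc_wide (s - (i : ℕ)) ≤ 3 := by
  unfold Tc_wide
  rw [Finset.sum_add_distrib, Finset.sum_add_distrib]
  have h1 := Tc_sum_le N (s - 1)
  have h2 := Tc_sum_le N s
  have h3 := Tc_sum_le N (s + 1)
  have e1 : ∀ i : Fin N, s - 1 - ((i : ℕ) : ℝ) = s - ((i : ℕ) : ℝ) - 1 := fun i => by ring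
  have e3 : ∀ i : Fin N, s + 1 - ((i : ℕ) : ℝ) = s - ((i : ℕ) : ℝ) + 1 := fun i => by ring
  simp only [e1] at h1
  simp only [e3] at h3
  linarith

theorem Tc_cont_hat : Continuous Tc_hat := by
  unfold Tc_hat
  fun_prop

theorem Tc_cont_wide : Continuous Tc_wide := by
  unfold Tc_wide
  have := Tc_cont_hat
  fun_prop

/-- The affine map. -/
noncomputable def Tc_u (n i : ℕ) (t : ℝ) : ℝ := n * t + n - i

theorem Tc_cont_u (n i : ℕ) : Continuous (Tc_u n i) := by
  unfold Tc_u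
  fun_prop

theorem Tc_u_eq {n : ℕ} (hn : 0 < n) (i : ℕ) (t : ℝ) :
    t - ((i : ℝ) - n) / n = Tc_u n i t / n := by
  have : (n : ℝ) ≠ 0 := by positivity
  unfold Tc_u
  field_simp
  ring

theorem Tc_sqrt_le {a : ℝ} (h : a ≤ 1) : √a ≤ 1 :=
  (Real.sqrt_le_sqrt h).trans (by rw [Real.sqrt_one])

theorem Tc_b1 {n : ℕ} (hn : 0 < n) (i : ℕ) (t : ℝ) :
    ‖√(Tc_hat (Tc_u n i t)) * (t - ((i : ℝ) - n) / n)‖ ≤ 1 / n := by
  have hn' : (0 : ℝ) < n := by exact_mod_cast hn
  rw [Tc_u_eq hn, norm_mul, Real.norm_eq_abs, Real.norm_eq_abs, abs_div, abs_of_pos hn',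
    abs_of_nonneg (Real.sqrt_nonneg _), ← mul_div_assoc]
  refine div_le_div_of_nonneg_right ?_ hn'.le
  rcases le_total |Tc_u n i t| 1 with h | h
  · have : √(Tc_hat (Tc_u n i t)) ≤ 1 := Tc_sqrt_le (Tc_hat_le _)
    calc _ ≤ 1 * 1 := mul_le_mul this h (abs_nonneg _) (by norm_num)
      _ = 1 := by norm_num
  · rw [Tc_hat_zero h]
    simp

theorem Tc_b2 {n : ℕ} (hn : 0 < n) (i : ℕ) (t : ℝ) :
    ‖(t - ((i : ℝ) - n) / n) * √(Tc_wide (Tc_u n i t))‖ ≤ 2 / n := by
  have hn' : (0 : ℝ) < n := by exact_mod_cast hn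
  rw [Tc_u_eq hn, norm_mul, Real.norm_eq_abs, Real.norm_eq_abs, abs_div, abs_of_pos hn',
    abs_of_nonneg (Real.sqrt_nonneg _), div_mul_eq_mul_div]
  refine div_le_div_of_nonneg_right ?_ hn'.le
  rcases le_total |Tc_u n i t| 2 with h | h
  · have : √(Tc_wide (Tc_u n i t)) ≤ 1 := Tc_sqrt_le (Tc_wide_le _)
    calc _ ≤ 2 * 1 := mul_le_mul h this (Real.sqrt_nonneg _) (by norm_num)
      _ = 2 := by norm_num
  · rw [Tc_wide_zero h]
    simp

theorem Tc_main (B : Type*) [CStarAlgebra B] [Nontrivial B] (n : ℕ) (hn : 0 < n)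
    (φ : B ≃⋆ₐ[ℂ] B) (x y : B) (hx : IsSelfAdjoint x) (hx1 : ‖x‖ ≤ 1) (hy : ‖y‖ ≤ 1) :
    ∃ G H : Fin (2 * n + 1) → ℝ → ℝ,
      (∀ i, Continuous (G i)) ∧ (∀ i, Continuous (H i)) ∧
      (∀ i t, G i t * G i t * H i t = 0) ∧
      ‖x * y - y * φ x - ∑ i, (cfc (fun t => G i t * G i t * t) x * y * φ (cfc (H i) x) +
        cfc (fun t => - (G i t * G i t)) x * y * φ (cfc (fun t => t * H i t) x))‖ ≤ 6 / n := by
  let _ := CStarAlgebra.spectralOrder B
  let _ := CStarAlgebra.spectralOrderedRing B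
  have hn' : (0 : ℝ) < n := by exact_mod_cast hn
  have hsp : ∀ t ∈ spectrum ℝ x, |t| ≤ 1 := fun t ht =>
    (spectrum.norm_le_norm_of_mem ht).trans hx1
  set G : Fin (2 * n + 1) → ℝ → ℝ := fun i t => √(Tc_hat (Tc_u n i t)) with hG
  set M : Fin (2 * n + 1) → ℝ → ℝ := fun i t => √(Tc_wide (Tc_u n i t)) with hM
  set H : Fin (2 * n + 1) → ℝ → ℝ := fun i t => 1 - Tc_wide (Tc_u n i t) with hH
  have cG : ∀ i, Continuous (G i) := fun i =>
    Real.continuous_sqrt.comp (Tc_cont_hat.comp (Tc_cont_u n i))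
  have cM : ∀ i, Continuous (M i) := fun i =>
    Real.continuous_sqrt.comp (Tc_cont_wide.comp (Tc_cont_u n i))
  have cH : ∀ i, Continuous (H i) := fun i =>
    continuous_const.sub (Tc_cont_wide.comp (Tc_cont_u n i))
  have GG : ∀ i t, G i t * G i t = Tc_hat (Tc_u n i t) := fun i t =>
    Real.mul_self_sqrt (Tc_hat_nonneg _)
  have MM : ∀ i t, M i t * M i t = Tc_wide (Tc_u n i t) := fun i t =>
    Real.mul_self_sqrt (Tc_wide_nonneg _)
  refine ⟨G, H, cG, cH, fun i t => by rw [GG]; exact Tc_hat_mul _, ?_⟩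
  set g : Fin (2 * n + 1) → B := fun i => cfc (G i) x with hg
  set m : Fin (2 * n + 1) → B := fun i => cfc (M i) x with hm
  set h : Fin (2 * n + 1) → B := fun i => cfc (H i) x with hh
  have sg : ∀ i, IsSelfAdjoint (g i) := fun i => cfc_predicate _ _
  have sm : ∀ i, IsSelfAdjoint (m i) := fun i => cfc_predicate _ _
  have ggx : ∀ i, cfc (fun t => G i t * G i t * t) x = g i * g i * x := by
    intro i
    rw [cfc_mul (fun t => G i t * G i t) (fun t => t) x
      ((cG i).mul (cG i)).continuousOn continuousOn_id, cfc_mul (G i) (G i) x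
      (cG i).continuousOn (cG i).continuousOn, cfc_id' ℝ x]
  have ggn : ∀ i, cfc (fun t => - (G i t * G i t)) x = - (g i * g i) := by
    intro i
    rw [cfc_neg, cfc_mul (G i) (G i) x (cG i).continuousOn (cG i).continuousOn]
  have xh : ∀ i, cfc (fun t => t * H i t) x = x * h i := by
    intro i
    rw [cfc_mul (fun t => t) (H i) x continuousOn_id (cH i).continuousOn, cfc_id' ℝ x]
  have mmh : ∀ i, m i * m i + h i = 1 := by
    intro i
    rw [hm, hh]
    simp only
    rw [← cfc_mul (M i) (M i) x (cM i).continuousOn (cM i).continuousOn,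
      ← cfc_add x (fun t => M i t * M i t) (H i) ((cM i).mul (cM i)).continuousOn
        (cH i).continuousOn, ← cfc_const_one ℝ x]
    refine cfc_congr fun t _ => ?_
    simp only [MM, hH]
    ring
  have sgg : ∑ i, g i * g i = 1 := by
    have e : ∀ i, g i * g i = cfc (fun t => G i t * G i t) x := fun i =>
      (cfc_mul (G i) (G i) x (cG i).continuousOn (cG i).continuousOn).symm
    rw [Finset.sum_congr rfl (fun i _ => e i),
      ← cfc_sum_univ (fun (i : Fin (2 * n + 1)) t => G i t * G i t) x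
        (fun i => ((cG i).mul (cG i)).continuousOn), ← cfc_const_one ℝ x]
    refine cfc_congr fun t ht => ?_
    have ht' := abs_le.1 (hsp t ht)
    rw [Finset.sum_apply]
    simp only [GG, Tc_u]
    refine Tc_sum_one n (n * t + n) ?_ ?_
    · nlinarith [ht'.1]
    · nlinarith [ht'.2]
  have smm : ‖∑ i, m i * m i‖ ≤ 3 := by
    have e : ∀ i, m i * m i = cfc (fun t => M i t * M i t) x := fun i =>
      (cfc_mul (M i) (M i) x (cM i).continuousOn (cM i).continuousOn).symm
    rw [Finset.sum_congr rfl (fun i _ => e i),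
      ← cfc_sum_univ (fun (i : Fin (2 * n + 1)) t => M i t * M i t) x
        (fun i => ((cM i).mul (cM i)).continuousOn)]
    refine norm_cfc_le (by norm_num) fun t _ => ?_
    rw [Finset.sum_apply]
    simp only [MM]
    rw [Real.norm_eq_abs, abs_of_nonneg (Finset.sum_nonneg fun i _ => Tc_wide_nonneg _)]
    exact Tc_sum_wide _ (n * t + n)
  have ng : ∀ i, ‖g i‖ ≤ 1 := by
    intro i
    refine norm_cfc_le (by norm_num) fun t _ => ?_
    rw [Real.norm_eq_abs, abs_of_nonneg (Real.sqrt_nonneg _)]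
    exact Tc_sqrt_le (Tc_hat_le _)
  have nm : ∀ i, ‖m i‖ ≤ 1 := by
    intro i
    refine norm_cfc_le (by norm_num) fun t _ => ?_
    rw [Real.norm_eq_abs, abs_of_nonneg (Real.sqrt_nonneg _)]
    exact Tc_sqrt_le (Tc_wide_le _)
  -- the scalars
  have xt : ∀ r : ℝ, cfc (fun t => t - r) x = x - algebraMap ℝ B r := by
    intro r
    rw [cfc_sub (fun t => t) (fun _ => r) x continuousOn_id continuousOn_const, cfc_id' ℝ x,
      cfc_const r x]
  have n1 : ∀ i : Fin (2 * n + 1),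
      ‖g i * (x - algebraMap ℝ B ((((i : ℕ) : ℝ) - n) / n))‖ ≤ 1 / n := by
    intro i
    rw [← xt, ← cfc_mul (G i) _ x (cG i).continuousOn (by fun_prop)]
    exact norm_cfc_le (by positivity) fun t _ => Tc_b1 hn i t
  have n2 : ∀ i : Fin (2 * n + 1),
      ‖(x - algebraMap ℝ B ((((i : ℕ) : ℝ) - n) / n)) * m i‖ ≤ 2 / n := by
    intro i
    rw [← xt, ← cfc_mul _ (M i) x (by fun_prop) (cM i).continuousOn]
    exact norm_cfc_le (by positivity) fun t _ => Tc_b2 hn i t
  have ns : ∀ z : B, ‖φ z‖ = ‖z‖ := fun z => StarAlgEquiv.norm_map φ z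
  have n3 : ∀ i, ‖g i * (x * y - y * φ x) * φ (m i)‖ ≤ 3 / n := by
    intro i
    set r : ℝ := (((i : ℕ) : ℝ) - n) / n with hr
    have hφr : φ (algebraMap ℝ B r) = algebraMap ℝ B r := by
      rw [IsScalarTower.algebraMap_apply ℝ ℂ B]
      exact AlgHomClass.commutes φ _
    have e : g i * (x * y - y * φ x) * φ (m i) =
        (g i * (x - algebraMap ℝ B r)) * y * φ (m i) -
          g i * y * φ ((x - algebraMap ℝ B r) * m i) := by
      have hc : algebraMap ℝ B r * y = y * algebraMap ℝ B r := Algebra.commutes r y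
      rw [map_mul, map_sub, hφr]
      have : g i * (x - algebraMap ℝ B r) * y = g i * x * y - g i * (y * algebraMap ℝ B r) := by
        rw [← hc]
        noncomm_ring
      rw [this]
      noncomm_ring
    rw [e]
    have h1 : ‖(g i * (x - algebraMap ℝ B r)) * y * φ (m i)‖ ≤ 1 / n := by
      calc _ ≤ ‖g i * (x - algebraMap ℝ B r)‖ * ‖y‖ * ‖φ (m i)‖ :=
            (norm_mul_le _ _).trans (mul_le_mul_of_nonneg_right (norm_mul_le _ _) (norm_nonneg _))
        _ ≤ 1 / n * 1 * 1 := by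
            rw [ns]
            have := n1 i
            have := nm i
            gcongr
        _ = 1 / n := by ring
    have h2 : ‖g i * y * φ ((x - algebraMap ℝ B r) * m i)‖ ≤ 2 / n := by
      calc _ ≤ ‖g i‖ * ‖y‖ * ‖φ ((x - algebraMap ℝ B r) * m i)‖ :=
            (norm_mul_le _ _).trans (mul_le_mul_of_nonneg_right (norm_mul_le _ _) (norm_nonneg _))
        _ ≤ 1 * 1 * (2 / n) := by
            rw [ns]
            have := n2 i
            have := ng i
            gcongr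
        _ = 2 / n := by ring
    calc _ ≤ 1 / (n : ℝ) + 2 / (n : ℝ) := (norm_sub_le _ _).trans (add_le_add h1 h2)
      _ = 3 / (n : ℝ) := by ring
  -- the sum
  have key : x * y - y * φ x - ∑ i, (cfc (fun t => G i t * G i t * t) x * y * φ (h i) +
        cfc (fun t => - (G i t * G i t)) x * y * φ (cfc (fun t => t * H i t) x)) =
      ∑ i, g i * ((2 : ℂ) • (g i * (x * y - y * φ x) * φ (m i))) *
        ((1 / 2 : ℂ) • φ (m i)) := by
    have e0 : x * y - y * φ x = ∑ i, g i * g i * (x * y - y * φ x) * φ (m i * m i + h i) := by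
      simp only [mmh, map_one, mul_one]
      rw [← Finset.sum_mul, sgg, one_mul]
    rw [sub_eq_iff_eq_add, ← Finset.sum_add_distrib]
    refine e0.trans (Finset.sum_congr rfl fun i _ => ?_)
    have hs : g i * ((2 : ℂ) • (g i * (x * y - y * φ x) * φ (m i))) * ((1 / 2 : ℂ) • φ (m i)) =
        g i * (g i * (x * y - y * φ x) * φ (m i)) * φ (m i) := by
      rw [mul_smul_comm, mul_smul_comm, smul_mul_assoc, smul_smul,
        show (1 / 2 : ℂ) * 2 = 1 by norm_num, one_smul]
    rw [ggx, ggn, xh, hs, map_add, map_mul, map_mul]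
    noncomm_ring
  rw [key]
  refine rowcol (by positivity) ?_ ?_ ?_
  · have : ∀ i, g i * star (g i) = g i * g i := fun i => by rw [(sg i).star_eq]
    rw [Finset.sum_congr rfl (fun i _ => this i), sgg]
  · have e : ∑ i, star ((1 / 2 : ℂ) • φ (m i)) * ((1 / 2 : ℂ) • φ (m i)) =
        (1 / 4 : ℂ) • φ (∑ i, m i * m i) := by
      rw [map_sum, Finset.smul_sum]
      refine Finset.sum_congr rfl fun i _ => ?_
      rw [star_smul, ← map_star, (sm i).star_eq, smul_mul_smul_comm, map_mul]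
      norm_num
    rw [← CStarAlgebra.norm_le_one_iff_of_nonneg _
      (Finset.sum_nonneg fun i _ => star_mul_self_nonneg _), e, norm_smul, ns]
    have : ‖(1 / 4 : ℂ)‖ = 1 / 4 := by norm_num
    rw [this]
    linarith
  · intro i
    rw [norm_smul]
    have : ‖(2 : ℂ)‖ = 2 := by norm_num
    rw [this]
    calc _ ≤ 2 * (3 / (n : ℝ)) := by
          have := n3 i
          gcongr
      _ = 6 / n := by ring

theorem tc (B : Type*) [CStarAlgebra B] {ε : ℝ} (hε : 0 < ε) : ∃ K : ℕ,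
    ∀ (φ : B ≃⋆ₐ[ℂ] B) (x y : B), IsSelfAdjoint x → ‖x‖ ≤ 1 → ‖y‖ ≤ 1 →
      ∃ a b : Fin K → B, (∀ i, IsSelfAdjoint (a i) ∧ IsSelfAdjoint (b i) ∧ a i * b i = 0) ∧
        (∀ i, ∀ z, z * x = x * z → z * a i = a i * z ∧ z * b i = b i * z) ∧
        ‖x * y - y * φ x - ∑ i, a i * y * φ (b i)‖ ≤ ε := by
  rcases subsingleton_or_nontrivial B with hB | hB
  · refine ⟨0, fun φ x y _ _ _ => ⟨fun _ => 0, fun _ => 0, fun i => i.elim0, fun i => i.elim0, ?_⟩⟩
    rw [Subsingleton.elim (x * y - y * φ x - ∑ i : Fin 0, 0 * y * φ 0) 0, norm_zero]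
    exact hε.le
  obtain ⟨n, hn⟩ := exists_nat_gt (6 / ε)
  have hn0 : (0 : ℝ) < n := lt_trans (by positivity) hn
  have hn1 : 0 < n := by exact_mod_cast hn0
  refine ⟨Fintype.card (Fin (2 * n + 1) × Bool), fun φ x y hx hx1 hy => ?_⟩
  obtain ⟨G, H, cG, cH, hGH, hle⟩ := Tc_main B n hn1 φ x y hx hx1 hy
  set e := Fintype.equivFin (Fin (2 * n + 1) × Bool) with he
  set fa : Fin (2 * n + 1) × Bool → ℝ → ℝ := fun p =>
    if p.2 then (fun t => G p.1 t * G p.1 t * t) else (fun t => - (G p.1 t * G p.1 t)) with hfa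
  set fb : Fin (2 * n + 1) × Bool → ℝ → ℝ := fun p =>
    if p.2 then H p.1 else (fun t => t * H p.1 t) with hfb
  have ca : ∀ p, Continuous (fa p) := by
    rintro ⟨i, b⟩
    have := cG i
    cases b
    · simp only [hfa, Bool.false_eq_true, if_false]
      fun_prop
    · simp only [hfa, if_true]
      fun_prop
  have cb : ∀ p, Continuous (fb p) := by
    rintro ⟨i, b⟩
    have := cH i
    cases b
    · simp only [hfb, Bool.false_eq_true, if_false]
      fun_prop
    · simp only [hfb, if_true]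
      exact this
  have hab : ∀ p t, fa p t * fb p t = 0 := by
    rintro ⟨i, b⟩ t
    have := hGH i t
    cases b
    · simp only [hfa, hfb, Bool.false_eq_true, if_false]
      linear_combination (-t) * this
    · simp only [hfa, hfb, if_true]
      linear_combination t * this
  refine ⟨fun k => cfc (fa (e.symm k)) x, fun k => cfc (fb (e.symm k)) x, fun k =>
    ⟨cfc_predicate _ _, cfc_predicate _ _, ?_⟩, fun k z hz => ?_, ?_⟩
  · rw [← cfc_mul _ _ x (ca _).continuousOn (cb _).continuousOn]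
    have : (fun t => fa (e.symm k) t * fb (e.symm k) t) = fun _ => (0 : ℝ) := by
      funext t
      exact hab _ t
    rw [this, cfc_const_zero]
  · have hz' : Commute x z := hz.symm
    exact ⟨((hx.commute_cfc hz' _).symm : _), ((hx.commute_cfc hz' _).symm : _)⟩
  · have hs : ∑ k, cfc (fa (e.symm k)) x * y * φ (cfc (fb (e.symm k)) x) =
        ∑ i, (cfc (fun t => G i t * G i t * t) x * y * φ (cfc (H i) x) +
          cfc (fun t => - (G i t * G i t)) x * y * φ (cfc (fun t => t * H i t) x)) := by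
      rw [Equiv.sum_comp e.symm (fun p => cfc (fa p) x * y * φ (cfc (fb p) x)),
        Fintype.sum_prod_type]
      refine Finset.sum_congr rfl fun i _ => ?_
      rw [Fintype.sum_bool]
      simp only [hfa, hfb, Bool.false_eq_true, if_false, if_true]
    rw [hs]
    refine hle.trans ?_
    rw [div_le_iff₀ hn0]
    rw [div_lt_iff₀ hε] at hn
    linarith

end Pool.Agent.H.MP_8be301_an.TZ
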